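import Pool.Agent.helper506_sr.Sys
import Pool.Agent.NPC.Sat

/-!
# The reduction from 3-satisfiability

The core columns are the occurrences of literals and one more column. The rows `0` and `1` contain
all core columns; the product of their signs is the assignment. For every clause there is a row
containing its three literals and the last column, and for every two occurrences of opposite
literals there is a row containing them. Finally, there is a row for every pair of columns.
-/

set_option autoImplicit false

namespace Pool.Agent.helper506_sr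

open Pool.Agent.NPC

/-- clauses -/
abbrev Cl : Type := Lit ℕ × Lit ℕ × Lit ℕ

/-- the literals of a clause -/
def lit3 (c : Cl) (k : ℕ) : Lit ℕ := if k = 0 then c.1 else if k = 1 then c.2.1 else c.2.2

/-- the `p`-th occurrence of a literal -/
def litOf (φ : List Cl) (p : ℕ) : Lit ℕ :=
  lit3 (φ.getD (p / 3) ((true, 0), (true, 0), (true, 0))) (p % 3)

/-- opposite literals -/
def Opp (l l' : Lit ℕ) : Prop := l.2 = l'.2 ∧ l.1 ≠ l'.1

instance (l l' : Lit ℕ) : Decidable (Opp l l') := by unfold Opp; infer_instance

/-- the number of core columns -/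
def numV (φ : List Cl) : ℕ := 3 * φ.length + 1

/-- the sets on which the assignment must not be constant -/
def edges (φ : List Cl) : List (List ℕ) :=
  (List.range φ.length).map (fun i => [3 * i, 3 * i + 1, 3 * i + 2, 3 * φ.length]) ++
    (List.range (3 * φ.length)).flatMap (fun p => ((List.range (3 * φ.length)).filter
      (fun q => decide (p < q) && decide (Opp (litOf φ p) (litOf φ q)))).map (fun q => [p, q]))

/-- the pairs of core columns -/
def zs (φ : List Cl) : List (List ℕ) :=
  (List.range (numV φ)).flatMap (fun p => ((List.range (numV φ)).filter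
    (fun q => decide (p < q))).map (fun q => [p, q]))

/-- the cores of the rows -/
def rowsL (φ : List Cl) : List (List ℕ) :=
  [List.range (numV φ), List.range (numV φ)] ++ edges φ ++ zs φ

/-- the core of a row -/
def row (φ : List Cl) (r : ℕ) : List ℕ := (rowsL φ).getD r []

/-- the core of a row -/
def core (φ : List Cl) (r v : ℕ) : Bool := decide (v ∈ row φ r)

/-- the common core columns of two rows -/
def ov (φ : List Cl) (r r' : ℕ) : ℕ :=
  ((List.range (numV φ)).filter (fun v => core φ r v && core φ r' v)).length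

/-- the slack of two rows -/
def slack (φ : List Cl) (r r' : ℕ) : ℕ :=
  if r = 0 ∧ (2 ≤ r' ∧ r' < 2 + (edges φ).length) then ov φ r r' - 2
  else if (r = 1 ∧ 2 + (edges φ).length ≤ r') ∨
    ((2 ≤ r ∧ r < 2 + (edges φ).length) ∧ 2 + (edges φ).length ≤ r') then ov φ r r' % 2
  else ov φ r r'

theorem mem_edges {φ : List Cl} {e : List ℕ} : e ∈ edges φ ↔
    (∃ i < φ.length, e = [3 * i, 3 * i + 1, 3 * i + 2, 3 * φ.length]) ∨
    (∃ p q, p < q ∧ q < 3 * φ.length ∧ Opp (litOf φ p) (litOf φ q) ∧ e = [p, q]) := by
  unfold edges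
  simp only [List.mem_append, List.mem_map, List.mem_range, List.mem_flatMap, List.mem_filter,
    Bool.and_eq_true, decide_eq_true_eq]
  constructor
  · rintro (⟨i, hi, rfl⟩ | ⟨p, hp, q, ⟨hq, hpq, ho⟩, rfl⟩)
    · exact Or.inl ⟨i, hi, rfl⟩
    · exact Or.inr ⟨p, q, hpq, hq, ho, rfl⟩
  · rintro (⟨i, hi, rfl⟩ | ⟨p, q, hpq, hq, ho, rfl⟩)
    · exact Or.inl ⟨i, hi, rfl⟩
    · exact Or.inr ⟨p, by omega, q, ⟨hq, hpq, ho⟩, rfl⟩

theorem mem_zs {φ : List Cl} {z : List ℕ} : z ∈ zs φ ↔
    ∃ p q, p < q ∧ q < numV φ ∧ z = [p, q] := by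
  unfold zs
  simp only [List.mem_map, List.mem_range, List.mem_flatMap, List.mem_filter, decide_eq_true_eq]
  constructor
  · rintro ⟨p, hp, q, ⟨hq, hpq⟩, rfl⟩
    exact ⟨p, q, hpq, hq, rfl⟩
  · rintro ⟨p, q, hpq, hq, rfl⟩
    exact ⟨p, by omega, q, ⟨hq, hpq⟩, rfl⟩

theorem rowsL_length (φ : List Cl) :
    (rowsL φ).length = 2 + (edges φ).length + (zs φ).length := by
  simp [rowsL]
  omega

theorem row_zero (φ : List Cl) : row φ 0 = List.range (numV φ) := by simp [row, rowsL]

theorem row_one (φ : List Cl) : row φ 1 = List.range (numV φ) := by simp [row, rowsL]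

theorem row_edge {φ : List Cl} {r : ℕ} (h : 2 ≤ r) (h' : r < 2 + (edges φ).length) :
    row φ r ∈ edges φ := by
  unfold row rowsL
  rw [List.getD_append _ _ _ _ (by simp; omega), List.getD_append_right _ _ _ _ (by simp; omega),
    List.getD_eq_getElem _ _ (by simp; omega)]
  exact List.getElem_mem _

theorem row_z {φ : List Cl} {r : ℕ} (h : 2 + (edges φ).length ≤ r) (h' : r < (rowsL φ).length) :
    row φ r ∈ zs φ := by
  rw [rowsL_length] at h'
  unfold row rowsL
  rw [List.getD_append_right _ _ _ _ (by simp; omega),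
    List.getD_eq_getElem _ _ (by simp; omega)]
  exact List.getElem_mem _

theorem exists_edge {φ : List Cl} {e : List ℕ} (he : e ∈ edges φ) :
    ∃ r, 2 ≤ r ∧ r < 2 + (edges φ).length ∧ row φ r = e := by
  obtain ⟨i, hi, rfl⟩ := List.getElem_of_mem he
  refine ⟨2 + i, by omega, by omega, ?_⟩
  unfold row rowsL
  rw [List.getD_append _ _ _ _ (by simp; omega), List.getD_append_right _ _ _ _ (by simp),
    List.getD_eq_getElem _ _ (by simpa using hi)]
  simp

theorem exists_z {φ : List Cl} {z : List ℕ} (hz : z ∈ zs φ) :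
    ∃ r, 2 + (edges φ).length ≤ r ∧ r < (rowsL φ).length ∧ row φ r = z := by
  obtain ⟨i, hi, rfl⟩ := List.getElem_of_mem hz
  refine ⟨2 + (edges φ).length + i, by omega, by rw [rowsL_length]; omega, ?_⟩
  unfold row rowsL
  rw [List.getD_append_right _ _ _ _ (by simp; omega), List.getD_eq_getElem _ _ (by
    simp; omega)]
  congr 1
  simp
  omega

theorem edge_facts {φ : List Cl} {e : List ℕ} (he : e ∈ edges φ) :
    e.Nodup ∧ 2 ≤ e.length ∧ ∀ v ∈ e, v < numV φ := by
  unfold numV
  rw [mem_edges] at he
  rcases he with ⟨i, hi, rfl⟩ | ⟨p, q, hpq, hq, -, rfl⟩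
  · refine ⟨?_, by simp, fun v hv => ?_⟩
    · simp
      omega
    · simp only [List.mem_cons, List.not_mem_nil, or_false] at hv
      omega
  · refine ⟨by simp; omega, by simp, fun v hv => ?_⟩
    simp only [List.mem_cons, List.not_mem_nil, or_false] at hv
    omega

/-- the common core columns -/
def cc (φ : List Cl) (r r' : ℕ) : Finset ℕ :=
  (Finset.range (numV φ)).filter (fun v => core φ r v = true ∧ core φ r' v = true)

theorem mem_cc {φ : List Cl} {r r' v : ℕ} :
    v ∈ cc φ r r' ↔ v < numV φ ∧ v ∈ row φ r ∧ v ∈ row φ r' := by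
  unfold cc core
  simp

theorem card_cc (φ : List Cl) (r r' : ℕ) : (cc φ r r').card = ov φ r r' := by
  unfold cc ov
  rw [Finset.card_def, Finset.filter_val, Finset.range_val, Multiset.range,
    Multiset.filter_coe, Multiset.coe_card]
  congr 2
  funext v
  simp

theorem cc_zero_edge {φ : List Cl} {r : ℕ} (h : 2 ≤ r) (h' : r < 2 + (edges φ).length) :
    cc φ 0 r = (row φ r).toFinset := by
  ext v
  rw [mem_cc, row_zero, List.mem_toFinset, List.mem_range]
  have := (edge_facts (row_edge h h')).2.2 v
  tauto

theorem sgn_aux {a b c d e f : ℤ} (ha : a = 1 ∨ a = -1) (hb : b = 1 ∨ b = -1)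
    (hc : c = 1 ∨ c = -1) (hd : d = 1 ∨ d = -1) (he : e = 1 ∨ e = -1) (hf : f = 1 ∨ f = -1)
    (h1 : a * e + b * f = 0) (h2 : c * e + d * f = 0) : c * d = a * b := by
  rcases ha with rfl | rfl <;> rcases hb with rfl | rfl <;> rcases hc with rfl | rfl <;>
    rcases hd with rfl | rfl <;> rcases he with rfl | rfl <;> rcases hf with rfl | rfl <;> omega

theorem sgn_aux2 {a b c d e f : ℤ} (ha : a = 1 ∨ a = -1) (hb : b = 1 ∨ b = -1)
    (hc : c = 1 ∨ c = -1) (hd : d = 1 ∨ d = -1) (he : e = 1 ∨ e = -1) (hf : f = 1 ∨ f = -1)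
    (h1 : c * d = a * b) (h2 : e * a = f * b) : e * c = f * d := by
  rcases ha with rfl | rfl <;> rcases hb with rfl | rfl <;> rcases hc with rfl | rfl <;>
    rcases hd with rfl | rfl <;> rcases he with rfl | rfl <;> rcases hf with rfl | rfl <;> omega

theorem nae_abs {S : Finset ℕ} {f : ℕ → ℤ} (hf : ∀ j, f j = 1 ∨ f j = -1)
    (h : ∃ u ∈ S, ∃ w ∈ S, f u ≠ f w) : |∑ j ∈ S, f j| ≤ (S.card : ℤ) - 2 := by
  classical
  obtain ⟨u, hu, w, hw, hne⟩ := h
  have huw : u ≠ w := fun h => hne (by rw [h])
  have hw' : w ∈ S.erase u := Finset.mem_erase.2 ⟨huw.symm, hw⟩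
  rw [← Finset.add_sum_erase S f hu, ← Finset.add_sum_erase _ f hw']
  have h0 : f u + f w = 0 := by
    rcases hf u with h1 | h1 <;> rcases hf w with h2 | h2 <;> rw [h1, h2] at hne ⊢ <;>
      simp at hne ⊢
  have h1 := abs_sum_le_card ((S.erase u).erase w) f hf
  rw [← add_assoc, h0, zero_add]
  refine h1.trans ?_
  have h2 : ((S.erase u).erase w).card + 1 = (S.erase u).card := Finset.card_erase_add_one hw'
  have h3 : (S.erase u).card + 1 = S.card := Finset.card_erase_add_one hu
  omega

theorem eq_abs {S : Finset ℕ} {f : ℕ → ℤ} (hf : ∀ j, f j = 1 ∨ f j = -1)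
    (h : ∀ u ∈ S, ∀ w ∈ S, f u = f w) : |∑ j ∈ S, f j| = (S.card : ℤ) := by
  rcases S.eq_empty_or_nonempty with rfl | ⟨u, hu⟩
  · simp
  · rw [Finset.sum_congr rfl fun w hw => h w hw u hu]
    rw [Finset.sum_const, nsmul_eq_mul, abs_mul]
    have : |f u| = 1 := by rcases hf u with h1 | h1 <;> rw [h1] <;> norm_num
    rw [this, mul_one]
    simp

theorem slack_edge {φ : List Cl} {r : ℕ} (h : 2 ≤ r) (h' : r < 2 + (edges φ).length) :
    (slack φ 0 r : ℤ) = ((cc φ 0 r).card : ℤ) - 2 ∧ 2 ≤ (cc φ 0 r).card := by
  have h1 : 2 ≤ (cc φ 0 r).card := by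
    rw [cc_zero_edge h h', List.toFinset_card_of_nodup (edge_facts (row_edge h h')).1]
    exact (edge_facts (row_edge h h')).2.1
  refine ⟨?_, h1⟩
  unfold slack
  rw [if_pos ⟨rfl, h, h'⟩, ← card_cc]
  omega

theorem slack_parity (φ : List Cl) (r r' : ℕ) (hlt : r < r') (_ : r' < (rowsL φ).length) :
    ∃ k : ℤ, (slack φ r r' : ℤ) = 2 * k + (((Finset.range (numV φ)).filter
      (fun v => core φ r v = true ∧ core φ r' v = true)).card : ℤ) := by
  change ∃ k : ℤ, (slack φ r r' : ℤ) = 2 * k + ((cc φ r r').card : ℤ)
  by_cases h : r = 0 ∧ (2 ≤ r' ∧ r' < 2 + (edges φ).length)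
  · obtain ⟨rfl, h1, h2⟩ := h
    exact ⟨-1, by rw [(slack_edge h1 h2).1]; ring⟩
  · rw [card_cc]
    unfold slack
    rw [if_neg h]
    split_ifs
    · have := Nat.div_add_mod (ov φ r r') 2
      exact ⟨-((ov φ r r' / 2 : ℕ) : ℤ), by omega⟩
    · exact ⟨0, by ring⟩

/-- A solvable instance. -/
theorem core_of_sat {φ : List Cl} (h : SAT3 φ) :
    ∃ s : ℕ → ℕ → ℤ, (∀ r v, s r v = 1 ∨ s r v = -1) ∧ ∀ r r', r < r' → r' < (rowsL φ).length →
      |∑ v ∈ cc φ r r', s r v * s r' v| ≤ (slack φ r r' : ℤ) := by
  obtain ⟨τ, hτ⟩ := h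
  let x : ℕ → ℤ := fun v => if v < 3 * φ.length ∧ τ (litOf φ v).2 = (litOf φ v).1 then -1 else 1
  have hx : ∀ v, x v = 1 ∨ x v = -1 := by
    intro v
    simp only [x]
    split_ifs <;> simp
  let s : ℕ → ℕ → ℤ := fun r v => if r = 0 then x v else if r < 2 + (edges φ).length then 1 else
    if v = (row φ r).getD 0 0 then 1 else -1
  have hs : ∀ r v, s r v = 1 ∨ s r v = -1 := by
    intro r v
    simp only [s]
    split_ifs
    · exact hx v
    · exact Or.inl rfl
    · exact Or.inl rfl
    · exact Or.inr rfl
  have hprod : ∀ r r' v, s r v * s r' v = 1 ∨ s r v * s r' v = -1 := by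
    intro r r' v
    rcases hs r v with h | h <;> rcases hs r' v with h' | h' <;> rw [h, h'] <;> simp
  refine ⟨s, hs, fun r r' hlt hr' => ?_⟩
  by_cases c1 : r = 0 ∧ (2 ≤ r' ∧ r' < 2 + (edges φ).length)
  · obtain ⟨rfl, h1, h2⟩ := c1
    rw [(slack_edge h1 h2).1]
    refine nae_abs (hprod 0 r') ?_
    have hval : ∀ v, s 0 v * s r' v = x v := by
      intro v
      have : r' ≠ 0 := by omega
      simp only [s, this, if_false, h2, if_true, mul_one]
    simp only [hval]
    rw [cc_zero_edge h1 h2]
    have he := row_edge h1 h2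
    rw [mem_edges] at he
    rcases he with ⟨i, hi, hrow⟩ | ⟨p, q, hpq, hq, ho, hrow⟩
    · rw [hrow]
      have hF : x (3 * φ.length) = 1 := by
        simp only [x]
        rw [if_neg (by omega)]
      have hc := hτ _ (List.getElem_mem hi)
      have key : ∀ k < 3, τ (lit3 φ[i] k).2 = (lit3 φ[i] k).1 → x (3 * i + k) = -1 := by
        intro k hk hh
        simp only [x]
        have h1 : litOf φ (3 * i + k) = lit3 φ[i] k := by
          unfold litOf
          have e1 : (3 * i + k) / 3 = i := by omega
          have e2 : (3 * i + k) % 3 = k := by omega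
          rw [e1, e2, List.getD_eq_getElem _ _ hi]
        rw [h1, if_pos ⟨by omega, hh⟩]
      have hx3 : ∃ k < 3, x (3 * i + k) = -1 := by
        rcases hc with hc | hc | hc
        · exact ⟨0, by omega, key 0 (by omega) hc⟩
        · exact ⟨1, by omega, key 1 (by omega) hc⟩
        · exact ⟨2, by omega, key 2 (by omega) hc⟩
      obtain ⟨k, hk, hxk⟩ := hx3
      refine ⟨3 * i + k, ?_, 3 * φ.length, by simp, by rw [hxk, hF]; norm_num⟩
      have : k = 0 ∨ k = 1 ∨ k = 2 := by omega
      rcases this with rfl | rfl | rfl <;> simp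
    · rw [hrow]
      refine ⟨p, by simp, q, by simp, ?_⟩
      simp only [x]
      obtain ⟨ho1, ho2⟩ := ho
      rw [ho1]
      by_cases hq2 : τ (litOf φ q).2 = (litOf φ q).1
      · rw [if_neg, if_pos ⟨hq, hq2⟩]
        · norm_num
        · rintro ⟨-, h3⟩
          exact ho2 (h3.symm.trans hq2)
      · rw [if_pos, if_neg fun h3 => hq2 h3.2]
        · norm_num
        · refine ⟨by omega, ?_⟩
          cases h4 : τ (litOf φ q).2 <;> cases h5 : (litOf φ q).1 <;>
            cases h6 : (litOf φ p).1 <;> simp_all
  · by_cases c2 : (r = 1 ∧ 2 + (edges φ).length ≤ r') ∨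
      ((2 ≤ r ∧ r < 2 + (edges φ).length) ∧ 2 + (edges φ).length ≤ r')
    · have hsl : slack φ r r' = (cc φ r r').card % 2 := by
        unfold slack
        rw [if_neg c1, if_pos c2, card_cc]
      rw [hsl]
      have hz : 2 + (edges φ).length ≤ r' := by
        rcases c2 with c | c
        · exact c.2
        · exact c.2
      have hr0 : r ≠ 0 := by
        rcases c2 with c | c
        · omega
        · omega
      have hrE : r < 2 + (edges φ).length := by
        rcases c2 with c | c
        · omega
        · exact c.1.2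
      obtain ⟨p, q, hpq, hq, hrow⟩ := mem_zs.1 (row_z hz hr')
      have hr'0 : r' ≠ 0 := by omega
      have hval : ∀ v, s r v * s r' v = if v = p then 1 else -1 := by
        intro v
        simp only [s, hr0, hr'0, if_false, hrE, if_true, not_lt.2 hz, hrow, one_mul]
        simp
      rw [Finset.sum_congr rfl fun v _ => hval v]
      have hsub : cc φ r r' ⊆ {p, q} := by
        intro v hv
        rw [mem_cc, hrow] at hv
        simpa using hv.2.2
      have hne : p ≠ q := by omega
      by_cases hp : p ∈ cc φ r r'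
      · by_cases hq' : q ∈ cc φ r r'
        · have heq : cc φ r r' = {p, q} := by
            refine Finset.Subset.antisymm hsub ?_
            intro v hv
            simp only [Finset.mem_insert, Finset.mem_singleton] at hv
            rcases hv with rfl | rfl
            · exact hp
            · exact hq'
          rw [heq, Finset.sum_pair hne, if_pos rfl, if_neg hne.symm]
          have h0 : (1 : ℤ) + -1 = 0 := by norm_num
          rw [h0, abs_zero]
          exact Int.natCast_nonneg _
        · have heq : cc φ r r' = {p} := by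
            refine Finset.Subset.antisymm ?_ (by simpa using hp)
            intro v hv
            have := hsub hv
            simp only [Finset.mem_insert, Finset.mem_singleton] at this ⊢
            rcases this with h | h
            · exact h
            · exact absurd (h ▸ hv) hq'
          rw [heq]
          simp
      · by_cases hq' : q ∈ cc φ r r'
        · have heq : cc φ r r' = {q} := by
            refine Finset.Subset.antisymm ?_ (by simpa using hq')
            intro v hv
            have := hsub hv
            simp only [Finset.mem_insert, Finset.mem_singleton] at this ⊢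
            rcases this with h | h
            · exact absurd (h ▸ hv) hp
            · exact h
          rw [heq]
          simp [hne.symm]
        · have heq : cc φ r r' = ∅ := by
            refine Finset.Subset.antisymm ?_ (Finset.empty_subset _)
            intro v hv
            have := hsub hv
            simp only [Finset.mem_insert, Finset.mem_singleton] at this
            rcases this with h | h
            · exact absurd (h ▸ hv) hp
            · exact absurd (h ▸ hv) hq'
          rw [heq]
          simp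
    · have hsl : slack φ r r' = (cc φ r r').card := by
        unfold slack
        rw [if_neg c1, if_neg c2, card_cc]
      rw [hsl]
      exact abs_sum_le_card _ _ (hprod r r')

/-- Solvable instances come from satisfiable formulas. -/
theorem sat_of_core {φ : List Cl} {s : ℕ → ℕ → ℤ} (hs : ∀ r v, s r v = 1 ∨ s r v = -1)
    (h : ∀ r r', r < r' → r' < (rowsL φ).length →
      |∑ v ∈ cc φ r r', s r v * s r' v| ≤ (slack φ r r' : ℤ)) : SAT3 φ := by
  classical
  have hl := rowsL_length φ
  have hprod : ∀ r r' v, s r v * s r' v = 1 ∨ s r v * s r' v = -1 := by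
    intro r r' v
    rcases hs r v with h | h <;> rcases hs r' v with h' | h' <;> rw [h, h'] <;> simp
  set x : ℕ → ℤ := fun v => s 0 v * s 1 v with hxdef
  have hx : ∀ v, x v = 1 ∨ x v = -1 := fun v => hprod 0 1 v
  -- every edge is not constant
  have hedge : ∀ e ∈ edges φ, ∃ u ∈ e, ∃ w ∈ e, x u ≠ x w := by
    intro e he
    obtain ⟨hnd, hlen, hV⟩ := edge_facts he
    obtain ⟨r, hr2, hrE, hrow⟩ := exists_edge he
    by_contra hcon
    push Not at hcon
    have hpar : ∀ u ∈ e, ∀ w ∈ e, u < w → s r u * s r w = s 1 u * s 1 w := by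
      intro u hu w hw huw
      obtain ⟨z, hz1, hz2, hzrow⟩ := exists_z (mem_zs.2 ⟨u, w, huw, hV w hw, rfl⟩)
      have hne : u ≠ w := by omega
      have e1 : cc φ 1 z = {u, w} := by
        ext v
        rw [mem_cc, row_one, hzrow]
        simp only [List.mem_range, List.mem_cons, List.not_mem_nil, or_false, Finset.mem_insert,
          Finset.mem_singleton]
        constructor
        · exact fun h => h.2.2
        · intro h
          have : v < numV φ := by
            rcases h with rfl | rfl
            · exact hV _ hu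
            · exact hV _ hw
          exact ⟨this, this, h⟩
      have e2 : cc φ r z = {u, w} := by
        ext v
        rw [mem_cc, hrow, hzrow]
        simp only [List.mem_cons, List.not_mem_nil, or_false, Finset.mem_insert,
          Finset.mem_singleton]
        constructor
        · exact fun h => h.2.2
        · intro h
          rcases h with rfl | rfl
          · exact ⟨hV _ hu, hu, Or.inl rfl⟩
          · exact ⟨hV _ hw, hw, Or.inr rfl⟩
      have h1 := h 1 z (by omega) hz2
      have h2 := h r z (by omega) hz2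
      have s1 : slack φ 1 z = 0 := by
        unfold slack
        rw [if_neg (by omega), if_pos (Or.inl ⟨rfl, hz1⟩), ← card_cc, e1, Finset.card_pair hne]
      have s2 : slack φ r z = 0 := by
        unfold slack
        rw [if_neg (by omega), if_pos (Or.inr ⟨⟨hr2, hrE⟩, hz1⟩), ← card_cc, e2,
          Finset.card_pair hne]
      rw [s1, e1, Finset.sum_pair hne] at h1
      rw [s2, e2, Finset.sum_pair hne] at h2
      have h1' : s 1 u * s z u + s 1 w * s z w = 0 := abs_nonpos_iff.1 (by exact_mod_cast h1)
      have h2' : s r u * s z u + s r w * s z w = 0 := abs_nonpos_iff.1 (by exact_mod_cast h2)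
      exact sgn_aux (hs 1 u) (hs 1 w) (hs r u) (hs r w) (hs z u) (hs z w) h1' h2'
    have hpar' : ∀ u ∈ e, ∀ w ∈ e, s r u * s r w = s 1 u * s 1 w := by
      intro u hu w hw
      rcases lt_trichotomy u w with h1 | h1 | h1
      · exact hpar u hu w hw h1
      · subst h1
        rcases hs r u with a | a <;> rcases hs 1 u with b | b <;> rw [a, b] <;> norm_num
      · rw [mul_comm (s r u), mul_comm (s 1 u)]
        exact hpar w hw u hu h1
    have hall : ∀ u ∈ cc φ 0 r, ∀ w ∈ cc φ 0 r, s 0 u * s r u = s 0 w * s r w := by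
      intro u hu w hw
      rw [cc_zero_edge hr2 hrE, List.mem_toFinset, hrow] at hu hw
      have h1 := hpar' u hu w hw
      have h2 := hcon u hu w hw
      rw [hxdef] at h2
      simp only at h2
      exact sgn_aux2 (hs 1 u) (hs 1 w) (hs r u) (hs r w) (hs 0 u) (hs 0 w) h1 h2
    have h3 := h 0 r (by omega) (by omega)
    rw [eq_abs (hprod 0 r) hall, (slack_edge hr2 hrE).1] at h3
    omega
  refine ⟨fun X => decide (∃ p < 3 * φ.length, litOf φ p = (true, X) ∧ x p ≠ x (3 * φ.length)),
    fun c hc => ?_⟩
  obtain ⟨i, hi, rfl⟩ := List.getElem_of_mem hc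
  have hlit : ∀ k < 3, litOf φ (3 * i + k) = lit3 φ[i] k := by
    intro k hk
    unfold litOf
    have e1 : (3 * i + k) / 3 = i := by omega
    have e2 : (3 * i + k) % 3 = k := by omega
    rw [e1, e2, List.getD_eq_getElem _ _ hi]
  have hex : ∃ k < 3, x (3 * i + k) ≠ x (3 * φ.length) := by
    obtain ⟨u, hu, w, hw, hne⟩ := hedge _ (mem_edges.2 (Or.inl ⟨i, hi, rfl⟩))
    by_contra hcon
    push Not at hcon
    have c0 := hcon 0 (by omega)
    have c1 := hcon 1 (by omega)
    have c2 := hcon 2 (by omega)
    rw [add_zero] at c0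
    simp only [List.mem_cons, List.not_mem_nil, or_false] at hu hw
    apply hne
    rcases hu with rfl | rfl | rfl | rfl <;> rcases hw with rfl | rfl | rfl | rfl <;> simp_all
  obtain ⟨k, hk, hxk⟩ := hex
  have hgoal : decide (∃ p < 3 * φ.length, litOf φ p = (true, (lit3 φ[i] k).2) ∧
      x p ≠ x (3 * φ.length)) = (lit3 φ[i] k).1 := by
    cases hb : (lit3 φ[i] k).1
    · rw [decide_eq_false_iff_not]
      rintro ⟨p, hp, hp1, hp2⟩
      have hlk := hlit k hk
      have hopp : Opp (litOf φ p) (litOf φ (3 * i + k)) := by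
        rw [hlk, hp1]
        exact ⟨rfl, by rw [hb]; simp⟩
      have hne : p ≠ 3 * i + k := by
        intro h
        rw [← h] at hopp
        exact hopp.2 rfl
      have hdiff : x p ≠ x (3 * i + k) := by
        rcases lt_or_gt_of_ne hne with h1 | h1
        · obtain ⟨u, hu, w, hw, hn⟩ := hedge _ (mem_edges.2 (Or.inr ⟨p, 3 * i + k, h1, by omega,
            hopp, rfl⟩))
          simp only [List.mem_cons, List.not_mem_nil, or_false] at hu hw
          rcases hu with rfl | rfl <;> rcases hw with rfl | rfl
          · exact absurd rfl hn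
          · exact hn
          · exact hn.symm
          · exact absurd rfl hn
        · obtain ⟨u, hu, w, hw, hn⟩ := hedge _ (mem_edges.2 (Or.inr ⟨3 * i + k, p, h1, hp,
            ⟨hopp.1.symm, hopp.2.symm⟩, rfl⟩))
          simp only [List.mem_cons, List.not_mem_nil, or_false] at hu hw
          rcases hu with rfl | rfl <;> rcases hw with rfl | rfl
          · exact absurd rfl hn
          · exact hn.symm
          · exact hn
          · exact absurd rfl hn
      rcases hx p with a | a <;> rcases hx (3 * i + k) with b | b <;>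
        rcases hx (3 * φ.length) with c | c <;> simp_all
    · rw [decide_eq_true_iff]
      refine ⟨3 * i + k, by omega, ?_, hxk⟩
      rw [hlit k hk, ← hb]
  have : k = 0 ∨ k = 1 ∨ k = 2 := by omega
  rcases this with rfl | rfl | rfl
  · exact Or.inl hgoal
  · exact Or.inr (Or.inl hgoal)
  · exact Or.inr (Or.inr hgoal)

end Pool.Agent.helper506_sr
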