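import Pool.Agent.helper506_sr.Fin
import Pool.Agent.NPC.Hard

/-!
# The reduction is computable in polynomial time
-/

set_option autoImplicit false

namespace Pool.Agent.helper506_sr

open Pool.Agent.NPC

section

variable {α β : Type} [TEnc α] [TEnc β] {φ : α → List Cl} {p q r : α → ℕ}

theorem poly_replicate {n : α → ℕ} {x : α → β} (hn : UPoly n) (hx : Poly x) :
    Poly (fun a => List.replicate (n a) (x a)) := by
  refine (NPC.Poly.map (l := fun a => List.replicate (n a) ()) (F := fun a _ => x a) hn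
    (hx.comp (NPC.Poly.fst NPC.Poly.id))).congr fun a => ?_
  simp

theorem poly_litOf (hφ : Poly φ) (hp : Poly p) : Poly (fun a => litOf (φ a) (p a)) := by
  have h1 : Poly (fun a => (φ a).getD (p a / 3) ((true, 0), (true, 0), (true, 0))) :=
    NPC.Poly.getD (d := fun _ => (((true, 0), (true, 0), (true, 0)) : Cl)) hφ
      (NPC.Poly.div hp (NPC.Poly.const 3)) (NPC.Poly.const _)
  have h2 : Poly (fun a => p a % 3) := NPC.Poly.mod hp (NPC.Poly.const 3)
  exact NPC.Poly.ite (p := fun a => p a % 3 = 0) (NPC.Poly.decide_eq h2 (NPC.Poly.const 0))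
    (NPC.Poly.fst h1)
    (NPC.Poly.ite (p := fun a => p a % 3 = 1) (NPC.Poly.decide_eq h2 (NPC.Poly.const 1))
      (NPC.Poly.fst (NPC.Poly.snd h1)) (NPC.Poly.snd (NPC.Poly.snd h1)))

theorem poly_opp {l l' : α → Lit ℕ} (hl : Poly l) (hl' : Poly l') :
    Poly (fun a => decide (Opp (l a) (l' a))) := by
  have h := NPC.Poly.decide_and (NPC.Poly.decide_eq (NPC.Poly.snd hl) (NPC.Poly.snd hl'))
    (NPC.Poly.decide_not (NPC.Poly.decide_eq (NPC.Poly.fst hl) (NPC.Poly.fst hl')))
  exact h.congr fun a => decide_eq_decide.2 Iff.rfl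

theorem upoly_numV (hφ : Poly φ) : UPoly (fun a => numV (φ a)) :=
  UPoly.add (UPoly.mul (UPoly.const 3) (UPoly.length hφ)) (UPoly.const 1)

theorem poly_edges (hφ : Poly φ) : Poly (fun a => edges (φ a)) := by
  have hm3 : UPoly (fun a => 3 * (φ a).length) := UPoly.mul (UPoly.const 3) (UPoly.length hφ)
  have e1 : Poly (fun a => (List.range (φ a).length).map
      (fun i => [3 * i, 3 * i + 1, 3 * i + 2, 3 * (φ a).length])) := by
    have hi : Poly (fun x : α × ℕ => 3 * x.2) :=
      NPC.Poly.mul (NPC.Poly.const 3) (NPC.Poly.snd NPC.Poly.id)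
    have hm : Poly (fun x : α × ℕ => 3 * (φ x.1).length) :=
      (hm3.toPoly).comp (NPC.Poly.fst NPC.Poly.id)
    exact NPC.Poly.map (F := fun a i => [3 * i, 3 * i + 1, 3 * i + 2, 3 * (φ a).length])
      (UPoly.length hφ).range
      (NPC.Poly.cons hi (NPC.Poly.cons (NPC.Poly.add hi (NPC.Poly.const 1))
        (NPC.Poly.cons (NPC.Poly.add hi (NPC.Poly.const 2))
          (NPC.Poly.cons hm (NPC.Poly.const [])))))
  have e2 : Poly (fun a => (List.range (3 * (φ a).length)).flatMap (fun p =>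
      ((List.range (3 * (φ a).length)).filter
      (fun q => decide (p < q) && decide (Opp (litOf (φ a) p) (litOf (φ a) q)))).map
        (fun q => [p, q]))) := by
    have hf : Poly (fun x : (α × ℕ) × ℕ => decide (x.1.2 < x.2) &&
        decide (Opp (litOf (φ x.1.1) x.1.2) (litOf (φ x.1.1) x.2))) := by
      have hφ' : Poly (fun x : (α × ℕ) × ℕ => φ x.1.1) :=
        hφ.comp (NPC.Poly.fst (NPC.Poly.fst NPC.Poly.id))
      have h1 : Poly (fun x : (α × ℕ) × ℕ => x.1.2) := NPC.Poly.snd (NPC.Poly.fst NPC.Poly.id)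
      have h2 : Poly (fun x : (α × ℕ) × ℕ => x.2) := NPC.Poly.snd NPC.Poly.id
      exact NPC.Poly.and (NPC.Poly.decide_lt h1 h2)
        (poly_opp (poly_litOf hφ' h1) (poly_litOf hφ' h2))
    have hfil : Poly (fun x : α × ℕ => (List.range (3 * (φ x.1).length)).filter
        (fun q => decide (x.2 < q) && decide (Opp (litOf (φ x.1) x.2) (litOf (φ x.1) q)))) :=
      NPC.Poly.filter (p := fun (x : α × ℕ) q => decide (x.2 < q) &&
        decide (Opp (litOf (φ x.1) x.2) (litOf (φ x.1) q)))
        ((hm3.comp (NPC.Poly.fst NPC.Poly.id)).range) hf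
    have hmap : Poly (fun x : α × ℕ => ((List.range (3 * (φ x.1).length)).filter
        (fun q => decide (x.2 < q) &&
          decide (Opp (litOf (φ x.1) x.2) (litOf (φ x.1) q)))).map (fun q => [x.2, q])) :=
      NPC.Poly.map (F := fun (x : α × ℕ) q => [x.2, q]) hfil
        (NPC.Poly.cons (NPC.Poly.snd (NPC.Poly.fst NPC.Poly.id))
          (NPC.Poly.cons (NPC.Poly.snd NPC.Poly.id) (NPC.Poly.const [])))
    exact NPC.Poly.flatMap (F := fun a p => ((List.range (3 * (φ a).length)).filter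
      (fun q => decide (p < q) && decide (Opp (litOf (φ a) p) (litOf (φ a) q)))).map
        (fun q => [p, q])) hm3.range hmap
  exact NPC.Poly.append e1 e2

theorem poly_zs (hφ : Poly φ) : Poly (fun a => zs (φ a)) := by
  have hV := upoly_numV hφ
  have hfil : Poly (fun x : α × ℕ => (List.range (numV (φ x.1))).filter
      (fun q => decide (x.2 < q))) :=
    NPC.Poly.filter (p := fun (x : α × ℕ) q => decide (x.2 < q))
      ((hV.comp (NPC.Poly.fst NPC.Poly.id)).range)
      (NPC.Poly.decide_lt (NPC.Poly.snd (NPC.Poly.fst NPC.Poly.id)) (NPC.Poly.snd NPC.Poly.id))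
  have hmap : Poly (fun x : α × ℕ => ((List.range (numV (φ x.1))).filter
      (fun q => decide (x.2 < q))).map (fun q => [x.2, q])) :=
    NPC.Poly.map (F := fun (x : α × ℕ) q => [x.2, q]) hfil
      (NPC.Poly.cons (NPC.Poly.snd (NPC.Poly.fst NPC.Poly.id))
        (NPC.Poly.cons (NPC.Poly.snd NPC.Poly.id) (NPC.Poly.const [])))
  exact NPC.Poly.flatMap (F := fun a p => ((List.range (numV (φ a))).filter
    (fun q => decide (p < q))).map (fun q => [p, q])) hV.range hmap

theorem poly_rowsL (hφ : Poly φ) : Poly (fun a => rowsL (φ a)) := by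
  have hr := (upoly_numV hφ).range
  exact NPC.Poly.append (NPC.Poly.append (NPC.Poly.cons hr (NPC.Poly.cons hr (NPC.Poly.const [])))
    (poly_edges hφ)) (poly_zs hφ)

theorem poly_core (hφ : Poly φ) (hr : Poly r) (hp : Poly p) :
    Poly (fun a => core (φ a) (r a) (p a)) :=
  NPC.Poly.decide_mem hp (NPC.Poly.getD (d := fun _ => ([] : List ℕ)) (poly_rowsL hφ) hr
    (NPC.Poly.const []))

theorem upoly_ov (hφ : Poly φ) (hr : Poly r) (hq : Poly q) :
    UPoly (fun a => ov (φ a) (r a) (q a)) := by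
  refine UPoly.length (NPC.Poly.filter (p := fun a v => core (φ a) (r a) v && core (φ a) (q a) v)
    (upoly_numV hφ).range ?_)
  exact NPC.Poly.and
    (poly_core (hφ.comp (NPC.Poly.fst NPC.Poly.id)) (hr.comp (NPC.Poly.fst NPC.Poly.id))
      (NPC.Poly.snd NPC.Poly.id))
    (poly_core (hφ.comp (NPC.Poly.fst NPC.Poly.id)) (hq.comp (NPC.Poly.fst NPC.Poly.id))
      (NPC.Poly.snd NPC.Poly.id))

theorem slack_le (φ : List Cl) (r r' : ℕ) : slack φ r r' ≤ ov φ r r' := by
  unfold slack
  split_ifs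
  · exact Nat.sub_le _ _
  · exact Nat.mod_le _ _
  · exact le_refl _

theorem upoly_slack (hφ : Poly φ) (hr : Poly r) (hq : Poly q) :
    UPoly (fun a => slack (φ a) (r a) (q a)) := by
  have hov := upoly_ov hφ hr hq
  refine UPoly.of_le ?_ hov fun a => slack_le _ _ _
  have hE : Poly (fun a => 2 + (edges (φ a)).length) :=
    NPC.Poly.add (NPC.Poly.const 2) (NPC.Poly.length (poly_edges hφ))
  have c : ∀ n : ℕ, Poly (fun _ : α => n) := fun n => NPC.Poly.const n
  refine NPC.Poly.ite (p := fun a => r a = 0 ∧ (2 ≤ q a ∧ q a < 2 + (edges (φ a)).length)) ?_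
    (NPC.Poly.sub hov.toPoly (c 2)) ?_
  · exact NPC.Poly.decide_and (NPC.Poly.decide_eq hr (c 0))
      (NPC.Poly.decide_and (NPC.Poly.decide_le (c 2) hq) (NPC.Poly.decide_lt hq hE))
  · refine NPC.Poly.ite (p := fun a => (r a = 1 ∧ 2 + (edges (φ a)).length ≤ q a) ∨
      ((2 ≤ r a ∧ r a < 2 + (edges (φ a)).length) ∧ 2 + (edges (φ a)).length ≤ q a)) ?_
      (NPC.Poly.mod hov.toPoly (c 2)) hov.toPoly
    exact NPC.Poly.decide_or
      (NPC.Poly.decide_and (NPC.Poly.decide_eq hr (c 1)) (NPC.Poly.decide_le hE hq))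
      (NPC.Poly.decide_and
        (NPC.Poly.decide_and (NPC.Poly.decide_le (c 2) hr) (NPC.Poly.decide_lt hr hE))
        (NPC.Poly.decide_le hE hq))

theorem poly_base (hφ : Poly φ) : Poly (fun a =>
    base (numV (φ a)) (rowsL (φ a)).length (core (φ a)) (slack (φ a))) := by
  have hR : Poly (fun a => List.range (rowsL (φ a)).length) :=
    NPC.Poly.range_length (poly_rowsL hφ)
  have f1 : Poly (fun x : α × ℕ => x.1) := NPC.Poly.fst NPC.Poly.id
  have f2 : Poly (fun x : α × ℕ => x.2) := NPC.Poly.snd NPC.Poly.id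
  have hco : Poly (fun a => coreCols (numV (φ a)) (rowsL (φ a)).length (core (φ a))) := by
    refine NPC.Poly.map (F := fun a v => (List.range (rowsL (φ a)).length).filter
      (fun r => core (φ a) r v)) (upoly_numV hφ).range ?_
    refine NPC.Poly.filter (p := fun (x : α × ℕ) r => core (φ x.1) r x.2) (hR.comp f1) ?_
    exact poly_core (hφ.comp (NPC.Poly.fst (NPC.Poly.fst NPC.Poly.id)))
      (NPC.Poly.snd NPC.Poly.id) (NPC.Poly.snd (NPC.Poly.fst NPC.Poly.id))
  have hsl : Poly (fun a => slackCols (rowsL (φ a)).length (slack (φ a))) := by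
    refine NPC.Poly.flatMap (F := fun a r => (List.range (rowsL (φ a)).length).flatMap
      (fun r' => if r < r' then List.replicate (slack (φ a) r r') [r, r'] else [])) hR ?_
    refine NPC.Poly.flatMap (F := fun (x : α × ℕ) r' =>
      if x.2 < r' then List.replicate (slack (φ x.1) x.2 r') [x.2, r'] else []) (hR.comp f1) ?_
    have g1 : Poly (fun x : (α × ℕ) × ℕ => x.1.1) := NPC.Poly.fst (NPC.Poly.fst NPC.Poly.id)
    have g2 : Poly (fun x : (α × ℕ) × ℕ => x.1.2) := NPC.Poly.snd (NPC.Poly.fst NPC.Poly.id)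
    have g3 : Poly (fun x : (α × ℕ) × ℕ => x.2) := NPC.Poly.snd NPC.Poly.id
    exact NPC.Poly.ite (p := fun x : (α × ℕ) × ℕ => x.1.2 < x.2) (NPC.Poly.decide_lt g2 g3)
      (poly_replicate (upoly_slack (hφ.comp g1) g2 g3)
        (NPC.Poly.cons g2 (NPC.Poly.cons g3 (NPC.Poly.const [])))) (NPC.Poly.const [])
  exact NPC.Poly.append hco hsl

theorem poly_pad {R : α → ℕ} {b : α → List (List ℕ)} (hR : UPoly R) (hb : Poly b) :
    Poly (fun a => padCols (R a) (b a)) := by
  refine NPC.Poly.flatMap (F := fun a r => List.replicate ((b a).length ^ 2 -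
    (b a).countP (fun c => decide (r ∈ c))) [r]) hR.range ?_
  have g1 : Poly (fun x : α × ℕ => x.1) := NPC.Poly.fst NPC.Poly.id
  have g2 : Poly (fun x : α × ℕ => x.2) := NPC.Poly.snd NPC.Poly.id
  have hbl : UPoly (fun x : α × ℕ => (b x.1).length) := UPoly.length (hb.comp g1)
  have hsq : UPoly (fun x : α × ℕ => (b x.1).length ^ 2) :=
    NPC.Poly.congr (UPoly.mul hbl hbl) fun x => by
      change List.replicate ((b x.1).length * (b x.1).length) () =
        List.replicate ((b x.1).length ^ 2) ()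
      rw [sq]
  have hcnt : Poly (fun x : α × ℕ => (b x.1).countP (fun c => decide (x.2 ∈ c))) := by
    have hf : Poly (fun x : α × ℕ => (b x.1).filter (fun c => decide (x.2 ∈ c))) :=
      NPC.Poly.filter (p := fun (x : α × ℕ) c => decide (x.2 ∈ c)) (hb.comp g1)
        (NPC.Poly.decide_mem (g2.comp (NPC.Poly.fst NPC.Poly.id)) (NPC.Poly.snd NPC.Poly.id))
    exact (NPC.Poly.length hf).congr fun x => by rw [List.countP_eq_length_filter]
  exact poly_replicate (UPoly.of_le (NPC.Poly.sub hsq.toPoly hcnt) hsq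
    fun x => Nat.sub_le _ _) (NPC.Poly.cons g2 (NPC.Poly.const []))

theorem poly_inc {R : α → ℕ} {b : α → List (List ℕ)} (hR : UPoly R) (hb : Poly b) :
    Poly (fun a => inc (R a) (b a)) := by
  refine NPC.Poly.append ?_ hb
  have g1 : Poly (fun x : α × ℕ => x.1) := NPC.Poly.fst NPC.Poly.id
  refine NPC.Poly.map (F := fun a r => ((List.range (b a).length).filter
    (fun j => decide (r ∈ (b a).getD j []))).map (fun j => R a + j)) hR.range ?_
  refine NPC.Poly.map (F := fun (x : α × ℕ) j => R x.1 + j) ?_ ?_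
  · refine NPC.Poly.filter (p := fun (x : α × ℕ) j => decide (x.2 ∈ (b x.1).getD j []))
      (NPC.Poly.range_length (hb.comp g1)) ?_
    exact NPC.Poly.decide_mem (NPC.Poly.snd (NPC.Poly.fst NPC.Poly.id))
      (NPC.Poly.getD (d := fun _ => ([] : List ℕ))
        (hb.comp (NPC.Poly.fst (NPC.Poly.fst NPC.Poly.id))) (NPC.Poly.snd NPC.Poly.id)
        (NPC.Poly.const []))
  · exact NPC.Poly.add (hR.toPoly.comp (NPC.Poly.fst (NPC.Poly.fst NPC.Poly.id)))
      (NPC.Poly.snd NPC.Poly.id)

end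

theorem poly_red : Poly red := by
  have hφ : Poly (fun φ : List Cl => φ) := NPC.Poly.id
  have hR : UPoly (fun φ : List Cl => (rowsL φ).length) := UPoly.length (poly_rowsL hφ)
  have hb := poly_base hφ
  have hall : Poly (fun φ : List Cl =>
      allCols (numV φ) (rowsL φ).length (core φ) (slack φ)) :=
    NPC.Poly.append hb (poly_pad hR hb)
  exact NPC.Poly.pair (poly_inc hR hall)
    (NPC.Poly.pair (NPC.Poly.length hb) (NPC.Poly.const 1))

end Pool.Agent.helper506_sr
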