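import Pool.Agent.NPC.Defs

/-!
# Signed graphs, the spectral radius of a signature, and the decision problem

The definitions follow the statement of the problem word for word.
-/

set_option autoImplicit false

namespace Pool.Agent.helper506_sr

/-- A signature (signing) of the graph `G`: a map from the edges of `G` to `{1, -1}`. -/
abbrev Signature {V : Type} (G : SimpleGraph V) : Type := G.edgeSet → ℤˣ

open Classical in
/-- The signed adjacency matrix of a signature: the entry at `(x, y)` is the sign of the edge `xy`
if `x` and `y` are adjacent, and `0` otherwise. -/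
noncomputable def signedAdj {V : Type} (G : SimpleGraph V) (σ : Signature G) : Matrix V V ℝ :=
  fun x y => if h : G.Adj x y then (((σ ⟨s(x, y), h⟩ : ℤˣ) : ℤ) : ℝ) else 0

/-- The spectral radius of a real square matrix `A`: the supremum of the numbers `|μ|`, where `μ`
runs through the eigenvalues of `A`. (It is used only for symmetric real matrices, which have
finitely many eigenvalues, at least one of them, and all of them are real.) -/
noncomputable def radius {V : Type} [Fintype V] [DecidableEq V] (A : Matrix V V ℝ) : ℝ :=
  sSup {r : ℝ | ∃ μ : ℝ, Module.End.HasEigenvalue (Matrix.toLin' A) μ ∧ r = |μ|}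

/-- The least spectral radius of a signature of `G`. -/
noncomputable def rhoMin {V : Type} [Fintype V] [DecidableEq V] (G : SimpleGraph V) : ℝ :=
  ⨅ σ : Signature G, radius (signedAdj G σ)

/-- The adjacency lists of a finite simple graph with the vertices `0, …, n - 1`: the `v`-th list
is the list of the neighbours of `v`; it does not contain `v` and has no repetition, and if `w` is
in the list of `v`, then `v` is in the list of `w`. -/
def IsAdjacencyLists (L : List (List ℕ)) : Prop :=
  ∀ (v : ℕ) (hv : v < L.length), L[v].Nodup ∧ v ∉ L[v] ∧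
    ∀ w ∈ L[v], ∃ hw : w < L.length, v ∈ L[w]

/-- The graph with the given adjacency lists. -/
def graph (L : List (List ℕ)) : SimpleGraph (Fin L.length) where
  Adj u v := u ≠ v ∧ (v : ℕ) ∈ L[(u : ℕ)] ∧ (u : ℕ) ∈ L[(v : ℕ)]
  symm := ⟨fun _ _ h => ⟨h.1.symm, h.2.2, h.2.1⟩⟩
  loopless := ⟨fun _ h => h.1 rfl⟩

/-- **MIN-SIGNED-RADIUS.**  The input `(L, a, b)` consists of the adjacency lists `L` of a finite
simple connected graph `G` and of a rational number `t = a / b`.  The question is whether
`ρ_min(G) ≤ t`. -/
def MinSignedRadius (x : List (List ℕ) × ℕ × ℕ) : Prop :=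
  IsAdjacencyLists x.1 ∧ (graph x.1).Connected ∧ x.2.2 ≠ 0 ∧
    rhoMin (graph x.1) ≤ (x.2.1 : ℝ) / (x.2.2 : ℝ)

end Pool.Agent.helper506_sr
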