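import Pool.Agent.helper506_sr.Red

/-!
# Correctness of the reduction
-/

set_option autoImplicit false

namespace Pool.Agent.helper506_sr

open Pool.Agent.NPC

/-- The instance of a formula. -/
def red (φ : List Cl) : List (List ℕ) × ℕ × ℕ :=
  (inc (rowsL φ).length (allCols (numV φ) (rowsL φ).length (core φ) (slack φ)),
    (base (numV φ) (rowsL φ).length (core φ) (slack φ)).length, 1)

/-- A criterion for connectedness. -/
theorem inc_connected {R : ℕ} {cols : List (List ℕ)} (hc : Good R cols) (hR : 0 < R)
    (hrow : ∀ r < R, ∃ j, I cols r j ∧ I cols 0 j) (hcol : ∀ j < cols.length, ∃ r, I cols r j) :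
    (graph (inc R cols)).Connected := by
  have hl := inc_length R cols
  rw [SimpleGraph.connected_iff_exists_forall_reachable]
  refine ⟨⟨0, by omega⟩, ?_⟩
  have hrr : ∀ (r : ℕ) (hr : r < (inc R cols).length), r < R →
      (graph (inc R cols)).Reachable ⟨0, by omega⟩ ⟨r, hr⟩ := by
    intro r hr hrR
    obtain ⟨j, h1, h2⟩ := hrow r hrR
    have hj := (hc.lt h1).2
    have a1 : (graph (inc R cols)).Adj ⟨0, by omega⟩ ⟨R + j, by omega⟩ := by
      rw [inc_adj hc]
      refine Or.inl ⟨hR, by simp, ?_⟩
      simpa using h2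
    have a2 : (graph (inc R cols)).Adj ⟨R + j, by omega⟩ ⟨r, hr⟩ := by
      rw [inc_adj hc]
      refine Or.inr ⟨hrR, by simp, ?_⟩
      simpa using h1
    exact a1.reachable.trans a2.reachable
  rintro ⟨v, hv⟩
  rcases lt_or_ge v R with h | h
  · exact hrr v hv h
  · obtain ⟨r, hr⟩ := hcol (v - R) (by omega)
    have hrR := (hc.lt hr).1
    have a2 : (graph (inc R cols)).Adj ⟨r, by omega⟩ ⟨v, hv⟩ := by
      rw [inc_adj hc]
      exact Or.inl ⟨hrR, h, hr⟩
    exact (hrr r (by omega) hrR).trans a2.reachable

theorem core_zero {φ : List Cl} {v : ℕ} (hv : v < numV φ) : core φ 0 v = true := by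
  unfold core
  rw [row_zero]
  simpa using hv

theorem core_nonempty {φ : List Cl} {r : ℕ} (hr : r < (rowsL φ).length) :
    ∃ v < numV φ, core φ r v = true := by
  have h0 : 0 < numV φ := by unfold numV; omega
  rcases Nat.lt_or_ge r 2 with h | h
  · refine ⟨0, h0, ?_⟩
    have : r = 0 ∨ r = 1 := by omega
    unfold core
    rcases this with rfl | rfl
    · rw [row_zero]
      simpa using h0
    · rw [row_one]
      simpa using h0
  · rcases Nat.lt_or_ge r (2 + (edges φ).length) with h' | h'
    · obtain ⟨_, h2, h3⟩ := edge_facts (row_edge h h')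
      have h4 : 0 < (row φ r).length := by omega
      refine ⟨(row φ r)[0], h3 _ (List.getElem_mem h4), ?_⟩
      unfold core
      rw [decide_eq_true_iff]
      exact List.getElem_mem h4
    · obtain ⟨p, q, hpq, hq, hrow⟩ := mem_zs.1 (row_z h' hr)
      refine ⟨q, hq, ?_⟩
      unfold core
      rw [hrow]
      simp

theorem red_connected (φ : List Cl) : (graph (red φ).1).Connected := by
  have hgood := good_all (numV φ) (rowsL φ).length (core φ) (slack φ)
  have hR : 0 < (rowsL φ).length := by rw [rowsL_length]; omega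
  refine inc_connected hgood hR ?_ ?_
  · intro r hr
    obtain ⟨v, hv, hc⟩ := core_nonempty hr
    exact ⟨v, (I_core _ _ _ _ hr hv).2 hc, (I_core _ _ _ _ hR hv).2 (core_zero hv)⟩
  · intro j hj
    rcases Nat.lt_or_ge j (numV φ) with h | h
    · exact ⟨0, (I_core _ _ _ _ hR h).2 (core_zero h)⟩
    · obtain ⟨i, rfl⟩ := Nat.exists_eq_add_of_le h
      rw [allCols_eq, List.length_append, coreCols_length] at hj
      have hi : i < (rest (numV φ) (rowsL φ).length (core φ) (slack φ)).length := by omega
      have hm := List.getElem_mem hi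
      unfold I
      simp only [getD_rest]
      rw [List.getD_eq_getElem _ _ hi]
      unfold rest at hm
      rw [List.mem_append] at hm
      rcases hm with hm | hm
      · obtain ⟨a, b, _, _, he⟩ := mem_slack _ _ hm
        have he' : (rest (numV φ) (rowsL φ).length (core φ) (slack φ))[i] = [a, b] := he
        exact ⟨a, by rw [he']; simp⟩
      · obtain ⟨a, _, he⟩ := mem_pad _ hm
        have he' : (rest (numV φ) (rowsL φ).length (core φ) (slack φ))[i] = [a] := he
        exact ⟨a, by rw [he']; simp⟩

/-- **Correctness of the reduction.** -/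
theorem red_iff (φ : List Cl) : SAT3 φ ↔ MinSignedRadius (red φ) := by
  have hgood := good_all (numV φ) (rowsL φ).length (core φ) (slack φ)
  have h1 := inc_iff (t := (base (numV φ) (rowsL φ).length (core φ) (slack φ)).length) hgood
    (fun r hr => deg_all (numV φ) (rowsL φ).length (core φ) (slack φ) r hr)
  have h2 := sys_iff (numV φ) (rowsL φ).length (core φ) (slack φ) (slack_parity φ)
  have h3 : SAT3 φ ↔ ∃ s : ℕ → ℕ → ℤ, (∀ r v, s r v = 1 ∨ s r v = -1) ∧
      ∀ r r', r < r' → r' < (rowsL φ).length →
        |∑ v ∈ cc φ r r', s r v * s r' v| ≤ (slack φ r r' : ℤ) :=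
    ⟨core_of_sat, fun ⟨_, hs, h⟩ => sat_of_core hs h⟩
  have h4 : MinSignedRadius (red φ) ↔ rhoMin (graph (red φ).1) ≤
      ((base (numV φ) (rowsL φ).length (core φ) (slack φ)).length : ℝ) := by
    constructor
    · rintro ⟨_, _, _, h⟩
      simpa [red] using h
    · intro h
      refine ⟨inc_isAdj hgood, red_connected φ, one_ne_zero, ?_⟩
      simpa [red] using h
  rw [h4, h3]
  exact (h1.trans h2).symm

end Pool.Agent.helper506_sr
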