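import Pool.Agent.helper506_sr.Spec

/-!
# Bipartite graphs given by lists of columns

The vertices `0, …, R - 1` are called rows, the other vertices are called columns and each of them
is given by the list of the rows adjacent to it.
-/

set_option autoImplicit false

namespace Pool.Agent.helper506_sr

open Matrix

/-- The row `r` is incident with the column `j`. -/
abbrev I (cols : List (List ℕ)) (r j : ℕ) : Prop := r ∈ cols.getD j []

/-- The adjacency lists of the bipartite graph with `R` rows and the given columns. -/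
def inc (R : ℕ) (cols : List (List ℕ)) : List (List ℕ) :=
  (List.range R).map (fun r => ((List.range cols.length).filter
    (fun j => decide (r ∈ cols.getD j []))).map (fun j => R + j)) ++ cols

theorem inc_length (R : ℕ) (cols : List (List ℕ)) : (inc R cols).length = R + cols.length := by
  simp [inc]

theorem inc_row {R : ℕ} {cols : List (List ℕ)} {u : ℕ} (hu : u < (inc R cols).length)
    (h : u < R) : (inc R cols)[u] = ((List.range cols.length).filter
      (fun j => decide (u ∈ cols.getD j []))).map (fun j => R + j) := by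
  unfold inc
  rw [List.getElem_append_left (by simpa using h)]
  simp

theorem inc_col {R : ℕ} {cols : List (List ℕ)} {u : ℕ} (hu : u < (inc R cols).length)
    (h : R ≤ u) : (inc R cols)[u] = cols.getD (u - R) [] := by
  have hl := inc_length R cols
  have h2 : u - R < cols.length := by omega
  rw [List.getD_eq_getElem _ _ h2]
  unfold inc
  rw [List.getElem_append_right (by simpa using h)]
  simp

variable {R : ℕ} {cols : List (List ℕ)}

/-- The columns are lists of different rows. -/
def Good (R : ℕ) (cols : List (List ℕ)) : Prop := ∀ c ∈ cols, c.Nodup ∧ ∀ r ∈ c, r < R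

theorem Good.lt (hc : Good R cols) {r j : ℕ} (h : I cols r j) : r < R ∧ j < cols.length := by
  have hj : j < cols.length := by
    by_contra hj
    unfold I at h
    rw [List.getD_eq_default _ _ (by omega)] at h
    simp at h
  refine ⟨?_, hj⟩
  unfold I at h
  rw [List.getD_eq_getElem _ _ hj] at h
  exact (hc _ (List.getElem_mem hj)).2 r h

theorem mem_inc (hc : Good R cols) {u v : ℕ} (hu : u < (inc R cols).length) :
    v ∈ (inc R cols)[u] ↔ (u < R ∧ R ≤ v ∧ I cols u (v - R)) ∨ (R ≤ u ∧ I cols v (u - R)) := by
  rcases lt_or_ge u R with h | h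
  · rw [inc_row hu h]
    simp only [List.mem_map, List.mem_filter, List.mem_range, decide_eq_true_eq]
    constructor
    · rintro ⟨j, ⟨hj, hj'⟩, rfl⟩
      refine Or.inl ⟨h, by omega, ?_⟩
      rwa [Nat.add_sub_cancel_left]
    · rintro (⟨-, h2, h3⟩ | ⟨h2, -⟩)
      · exact ⟨v - R, ⟨(hc.lt h3).2, h3⟩, by omega⟩
      · omega
  · rw [inc_col hu h]
    constructor
    · intro h2
      exact Or.inr ⟨h, h2⟩
    · rintro (⟨h2, -⟩ | ⟨-, h3⟩)
      · omega
      · exact h3

theorem inc_isAdj (hc : Good R cols) : IsAdjacencyLists (inc R cols) := by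
  intro v hv
  refine ⟨?_, ?_, ?_⟩
  · rcases lt_or_ge v R with h | h
    · rw [inc_row hv h]
      refine List.Nodup.map (fun a b hab => ?_) (List.Nodup.filter _ List.nodup_range)
      exact Nat.add_left_cancel hab
    · rw [inc_col hv h]
      have hl := inc_length R cols
      have h2 : v - R < cols.length := by omega
      rw [List.getD_eq_getElem _ _ h2]
      exact (hc _ (List.getElem_mem h2)).1
  · rw [mem_inc hc]
    rintro (⟨h1, h2, -⟩ | ⟨h1, h2⟩)
    · omega
    · have := (hc.lt h2).1
      omega
  · intro w hw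
    rw [mem_inc hc] at hw
    have hl := inc_length R cols
    rcases hw with ⟨h1, h2, h3⟩ | ⟨h1, h2⟩
    · have h4 := (hc.lt h3).2
      refine ⟨by omega, ?_⟩
      rw [mem_inc hc]
      exact Or.inr ⟨h2, h3⟩
    · have h4 := (hc.lt h2).1
      refine ⟨by omega, ?_⟩
      rw [mem_inc hc]
      exact Or.inl ⟨h4, h1, h2⟩

theorem inc_adj (hc : Good R cols) {u v : Fin (inc R cols).length} :
    (graph (inc R cols)).Adj u v ↔
      ((u : ℕ) < R ∧ R ≤ (v : ℕ) ∧ I cols u (v - R)) ∨
        ((v : ℕ) < R ∧ R ≤ (u : ℕ) ∧ I cols v (u - R)) := by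
  change (u ≠ v ∧ (v : ℕ) ∈ (inc R cols)[(u : ℕ)] ∧ (u : ℕ) ∈ (inc R cols)[(v : ℕ)]) ↔ _
  rw [mem_inc hc, mem_inc hc]
  constructor
  · rintro ⟨-, h1 | h1, h2⟩
    · exact Or.inl h1
    · exact Or.inr ⟨(hc.lt h1.2).1, h1⟩
  · rintro (h | h)
    · refine ⟨?_, Or.inl h, Or.inr ⟨h.2.1, h.2.2⟩⟩
      rintro rfl
      omega
    · refine ⟨?_, Or.inr ⟨h.2.1, h.2.2⟩, Or.inl h⟩
      rintro rfl
      omega

/-- The vertex of a row. -/
def rv (hr : ℕ) (h : hr < R) : Fin (inc R cols).length := ⟨hr, by rw [inc_length]; omega⟩

/-- The vertex of a column. -/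
def cv (j : ℕ) (h : j < cols.length) : Fin (inc R cols).length :=
  ⟨R + j, by rw [inc_length]; omega⟩

/-- The product of two rows of a symmetric matrix given by signs. -/
theorem mulSelf_row {A : Matrix (Fin (inc R cols).length) (Fin (inc R cols).length) ℝ}
    (hA : Aᵀ = A) (hrow : ∀ r r' : Fin (inc R cols).length, (r : ℕ) < R → (r' : ℕ) < R →
      A r r' = 0) (s : ℕ → ℕ → ℤ)
    (hs : ∀ (r : ℕ) (hr : r < R) (j : ℕ) (hj : j < cols.length),
      A (rv r hr) (cv j hj) = if I cols r j then (s r j : ℝ) else 0)
    (r r' : ℕ) (hr : r < R) (hr' : r' < R) :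
    (A * A) (rv r hr) (rv r' hr') =
      ((∑ j ∈ (Finset.range cols.length).filter (fun j => I cols r j ∧ I cols r' j),
        s r j * s r' j : ℤ) : ℝ) := by
  have hl := inc_length R cols
  have hsymm : ∀ x y, A x y = A y x := fun x y => by
    conv_lhs => rw [← hA]
    rfl
  rw [Matrix.mul_apply]
  let f : ℕ → ℝ := fun c => if h : c < (inc R cols).length then
    A (rv r hr) ⟨c, h⟩ * A ⟨c, h⟩ (rv r' hr') else 0
  have h1 : ∑ c : Fin (inc R cols).length, A (rv r hr) c * A c (rv r' hr') =
      ∑ c ∈ Finset.range (inc R cols).length, f c := by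
    rw [← Fin.sum_univ_eq_sum_range]
    refine Finset.sum_congr rfl fun c _ => ?_
    simp only [f, c.2, dif_pos]
  rw [h1, hl, Finset.sum_range_add]
  have h2 : ∑ c ∈ Finset.range R, f c = 0 := by
    refine Finset.sum_eq_zero fun c hcR => ?_
    rw [Finset.mem_range] at hcR
    simp only [f]
    split_ifs with h
    · rw [hrow (rv r hr) ⟨c, h⟩ hr hcR, zero_mul]
    · rfl
  rw [h2, zero_add, Finset.sum_filter]
  push_cast
  refine Finset.sum_congr rfl fun j hj => ?_
  rw [Finset.mem_range] at hj
  have h3 : R + j < (inc R cols).length := by omega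
  have h4 : f (R + j) = A (rv r hr) (cv j hj) * A (rv r' hr') (cv j hj) := by
    simp only [f, dif_pos h3]
    rw [hsymm ⟨R + j, h3⟩ (rv r' hr')]
    rfl
  rw [h4, hs r hr j hj, hs r' hr' j hj]
  by_cases hi : I cols r j
  · by_cases hi' : I cols r' j
    · simp [hi, hi']
    · simp [hi, hi']
  · simp [hi]

/-- A signature from a sign function. -/
noncomputable def sigOf (s : ℕ → ℕ → ℤˣ) : Signature (graph (inc R cols)) := fun e =>
  Sym2.lift ⟨fun u v : Fin (inc R cols).length =>
    if (u : ℕ) < (v : ℕ) then s u (v - R) else s v (u - R), by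
      intro u v
      rcases lt_trichotomy (u : ℕ) (v : ℕ) with h | h | h
      · simp only [h, if_true, not_lt.2 h.le, if_false]
      · have : u = v := Fin.ext h
        subst this
        rfl
      · simp only [h, if_true, not_lt.2 h.le, if_false]⟩ (e : Sym2 (Fin (inc R cols).length))

theorem sigOf_row (hc : Good R cols) (s : ℕ → ℕ → ℤˣ) (r : ℕ) (hr : r < R) (j : ℕ)
    (hj : j < cols.length) :
    signedAdj (graph (inc R cols)) (sigOf s) (rv r hr) (cv j hj) =
      if I cols r j then (((s r j : ℤˣ) : ℤ) : ℝ) else 0 := by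
  have hadj : (graph (inc R cols)).Adj (rv r hr) (cv j hj) ↔ I cols r j := by
    rw [inc_adj hc]
    change (r < R ∧ R ≤ R + j ∧ I cols r (R + j - R)) ∨ (R + j < R ∧ _) ↔ _
    rw [Nat.add_sub_cancel_left]
    constructor
    · rintro (h | h)
      · exact h.2.2
      · omega
    · intro h
      exact Or.inl ⟨hr, by omega, h⟩
  unfold signedAdj
  by_cases h : I cols r j
  · rw [if_pos h, dif_pos (hadj.2 h)]
    have : sigOf s (⟨s(rv r hr, cv j hj), hadj.2 h⟩ : (graph (inc R cols)).edgeSet) = s r j := by
      unfold sigOf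
      simp only [Sym2.lift_mk]
      have h1 : ((rv r hr : Fin (inc R cols).length) : ℕ) = r := rfl
      have h2 : ((cv j hj : Fin (inc R cols).length) : ℕ) = R + j := rfl
      rw [h1, h2, if_pos (by omega), Nat.add_sub_cancel_left]
    rw [this]
  · rw [if_neg h, dif_neg fun h' => h (hadj.1 h')]

/-- **The radius is at most `t` if and only if the rows can be made orthogonal.** -/
theorem inc_iff {t : ℕ} (hc : Good R cols)
    (hdeg : ∀ r < R, ((Finset.range cols.length).filter (fun j => I cols r j)).card = t ^ 2) :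
    rhoMin (graph (inc R cols)) ≤ (t : ℝ) ↔
      ∃ s : ℕ → ℕ → ℤ, (∀ r j, s r j = 1 ∨ s r j = -1) ∧ ∀ r r', r < r' → r' < R →
        ∑ j ∈ (Finset.range cols.length).filter (fun j => I cols r j ∧ I cols r' j),
          s r j * s r' j = 0 := by
  rw [rhoMin_le_iff]
  have hrow : ∀ (σ : Signature (graph (inc R cols))) (r r' : Fin (inc R cols).length),
      (r : ℕ) < R → (r' : ℕ) < R → signedAdj (graph (inc R cols)) σ r r' = 0 := by
    intro σ r r' hr hr'
    unfold signedAdj
    rw [dif_neg]
    rw [inc_adj hc]
    omega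
  have hcol : ∀ (σ : Signature (graph (inc R cols))) (c c' : Fin (inc R cols).length),
      ¬ (c : ℕ) < R → ¬ (c' : ℕ) < R → signedAdj (graph (inc R cols)) σ c c' = 0 := by
    intro σ r r' hr hr'
    unfold signedAdj
    rw [dif_neg]
    rw [inc_adj hc]
    omega
  have hdiag : ∀ (s : ℕ → ℕ → ℤ), (∀ r j, s r j = 1 ∨ s r j = -1) → ∀ r < R,
      ∑ j ∈ (Finset.range cols.length).filter (fun j => I cols r j ∧ I cols r j),
        s r j * s r j = (t : ℤ) ^ 2 := by
    intro s hs r hr
    have : ∀ j ∈ (Finset.range cols.length).filter (fun j => I cols r j ∧ I cols r j),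
        s r j * s r j = 1 := by
      intro j _
      rcases hs r j with h | h <;> rw [h] <;> norm_num
    rw [Finset.sum_congr rfl this]
    simp only [and_self, Finset.sum_const, nsmul_eq_mul, mul_one]
    rw [hdeg r hr]
    push_cast
    rfl
  constructor
  · rintro ⟨σ, hσ⟩
    set A := signedAdj (graph (inc R cols)) σ with hA
    have hAT : Aᵀ = A := signedAdj_transpose σ
    have hval : ∀ x y, (graph (inc R cols)).Adj x y → A x y = 1 ∨ A x y = -1 := by
      intro x y hxy
      rw [hA]
      unfold signedAdj
      rw [dif_pos hxy]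
      rcases Int.units_eq_one_or (σ ⟨s(x, y), hxy⟩) with h | h <;> rw [h] <;> simp
    let s : ℕ → ℕ → ℤ := fun r j => if h : r < R ∧ j < cols.length then
      (if A (rv r h.1) (cv j h.2) = -1 then -1 else 1) else 1
    have hs1 : ∀ r j, s r j = 1 ∨ s r j = -1 := by
      intro r j
      simp only [s]
      split_ifs <;> simp
    have hs : ∀ (r : ℕ) (hr : r < R) (j : ℕ) (hj : j < cols.length),
        A (rv r hr) (cv j hj) = if I cols r j then (s r j : ℝ) else 0 := by
      intro r hr j hj
      have hadj : (graph (inc R cols)).Adj (rv r hr) (cv j hj) ↔ I cols r j := by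
        rw [inc_adj hc]
        change (r < R ∧ R ≤ R + j ∧ I cols r (R + j - R)) ∨ (R + j < R ∧ _) ↔ _
        rw [Nat.add_sub_cancel_left]
        constructor
        · rintro (h | h)
          · exact h.2.2
          · omega
        · intro h
          exact Or.inl ⟨hr, by omega, h⟩
      by_cases h : I cols r j
      · rw [if_pos h]
        simp only [s]
        rw [dif_pos ⟨hr, hj⟩]
        rcases hval _ _ (hadj.2 h) with h1 | h1
        · rw [h1, if_neg (by norm_num)]
          norm_num
        · rw [h1, if_pos rfl]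
          norm_num
      · rw [if_neg h, hA]
        unfold signedAdj
        rw [dif_neg fun h' => h (hadj.1 h')]
    refine ⟨s, hs1, fun r r' hlt hr' => ?_⟩
    have hr : r < R := lt_trans hlt hr'
    have e1 := mulSelf_row hAT (hrow σ) s hs r r' hr hr'
    have e2 := mulSelf_row hAT (hrow σ) s hs r r hr hr
    have e3 := mulSelf_row hAT (hrow σ) s hs r' r' hr' hr'
    rw [hdiag s hs1 r hr] at e2
    rw [hdiag s hs1 r' hr'] at e3
    have hne : (rv r hr : Fin (inc R cols).length) ≠ rv r' hr' := by
      intro h
      have := congrArg Fin.val h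
      change r = r' at this
      omega
    have := orth_of_radius hAT (Nat.cast_nonneg t) hσ hne (by rw [e2]; push_cast; rfl)
      (by rw [e3]; push_cast; rfl)
    rw [e1] at this
    exact_mod_cast this
  · rintro ⟨s, hs1, hs⟩
    let u : ℕ → ℕ → ℤˣ := fun r j => if s r j = 1 then 1 else -1
    have hu : ∀ r j, ((u r j : ℤˣ) : ℤ) = s r j := by
      intro r j
      simp only [u]
      rcases hs1 r j with h | h
      · rw [h, if_pos rfl]
        rfl
      · rw [h, if_neg (by norm_num)]
        rfl
    refine ⟨sigOf u, ?_⟩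
    set A := signedAdj (graph (inc R cols)) (sigOf u) with hA
    have hAT : Aᵀ = A := signedAdj_transpose _
    have hsr : ∀ (r : ℕ) (hr : r < R) (j : ℕ) (hj : j < cols.length),
        A (rv r hr) (cv j hj) = if I cols r j then (s r j : ℝ) else 0 := by
      intro r hr j hj
      rw [hA, sigOf_row hc, hu]
    refine radius_le_of_orth (Nat.cast_nonneg t) (fun x => (x : ℕ) < R) (hrow _) (hcol _) ?_ ?_
    · intro x y hx hy hxy
      have e1 := mulSelf_row hAT (hrow _) s hsr x y hx hy
      have hx' : (rv (x : ℕ) hx : Fin (inc R cols).length) = x := rfl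
      have hy' : (rv (y : ℕ) hy : Fin (inc R cols).length) = y := rfl
      rw [hx', hy'] at e1
      rw [e1]
      have hne : (x : ℕ) ≠ y := fun h => hxy (Fin.ext h)
      rcases lt_or_gt_of_ne hne with h | h
      · rw [hs x y h hy]
        simp
      · have h2 := hs y x h hx
        have h3 : ∑ j ∈ (Finset.range cols.length).filter
            (fun j => I cols x j ∧ I cols y j), s x j * s y j = 0 := by
          rw [← h2]
          refine Finset.sum_congr ?_ fun j _ => mul_comm _ _
          ext j
          simp only [Finset.mem_filter, Finset.mem_range]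
          tauto
        rw [h3]
        simp
    · intro x hx
      have e1 := mulSelf_row hAT (hrow _) s hsr x x hx hx
      have hx' : (rv (x : ℕ) hx : Fin (inc R cols).length) = x := rfl
      rw [hx'] at e1
      rw [e1, hdiag s hs1 x hx]
      push_cast
      exact le_refl _

end Pool.Agent.helper506_sr
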