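import Pool.Agent.helper506_sr.Defs

/-!
# Bounds for the spectral radius of a symmetric matrix
-/

set_option autoImplicit false

namespace Pool.Agent.helper506_sr

open Matrix

variable {V : Type} [Fintype V] [DecidableEq V]

/-- `radius A ≤ t` means that all eigenvalues are at most `t` in absolute value. -/
theorem radius_le_iff {A : Matrix V V ℝ} {t : ℝ} (ht : 0 ≤ t) :
    radius A ≤ t ↔ ∀ μ : ℝ, Module.End.HasEigenvalue (Matrix.toLin' A) μ → |μ| ≤ t := by
  constructor
  · intro h μ hμ
    have hb : BddAbove {r : ℝ | ∃ μ : ℝ, Module.End.HasEigenvalue (Matrix.toLin' A) μ ∧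
        r = |μ|} := ?_
    · exact le_trans (le_csSup hb ⟨μ, hμ, rfl⟩) h
    have hfin : Set.Finite {μ : ℝ | Module.End.HasEigenvalue (Matrix.toLin' A) μ} :=
      Module.End.finite_hasEigenvalue _
    have : {r : ℝ | ∃ μ : ℝ, Module.End.HasEigenvalue (Matrix.toLin' A) μ ∧ r = |μ|} =
        (fun μ : ℝ => |μ|) '' {μ : ℝ | Module.End.HasEigenvalue (Matrix.toLin' A) μ} := by
      ext r
      constructor
      · rintro ⟨μ, h1, h2⟩
        exact ⟨μ, h1, h2.symm⟩
      · rintro ⟨μ, h1, h2⟩
        exact ⟨μ, h1, h2.symm⟩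
    rw [this]
    exact (hfin.image _).bddAbove
  · intro h
    refine Real.sSup_le ?_ ht
    rintro r ⟨μ, hμ, rfl⟩
    exact h μ hμ

theorem hasEigenvalue_of {A : Matrix V V ℝ} {μ : ℝ} {v : V → ℝ} (hv : v ≠ 0)
    (h : A *ᵥ v = μ • v) : Module.End.HasEigenvalue (Matrix.toLin' A) μ := by
  refine Module.End.hasEigenvalue_of_hasEigenvector (x := v) ?_
  rw [Module.End.hasEigenvector_iff]
  refine ⟨?_, hv⟩
  rw [Module.End.mem_eigenspace_iff, Matrix.toLin'_apply, h]

theorem exists_of_hasEigenvalue {A : Matrix V V ℝ} {μ : ℝ}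
    (h : Module.End.HasEigenvalue (Matrix.toLin' A) μ) : ∃ v : V → ℝ, v ≠ 0 ∧ A *ᵥ v = μ • v := by
  obtain ⟨v, hv⟩ := h.exists_hasEigenvector
  rw [Module.End.hasEigenvector_iff, Module.End.mem_eigenspace_iff, Matrix.toLin'_apply] at hv
  exact ⟨v, hv.2, hv.1⟩

/-- If all eigenvalues of the symmetric matrix `A` are at most `t` in absolute value, then
`t² - A²` is positive semidefinite. -/
theorem sq_le_of_eigen {A : Matrix V V ℝ} (hA : Aᵀ = A) {t : ℝ} (ht : 0 ≤ t)
    (h : ∀ μ : ℝ, Module.End.HasEigenvalue (Matrix.toLin' A) μ → |μ| ≤ t) (v : V → ℝ) :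
    v ⬝ᵥ ((A * A) *ᵥ v) ≤ t ^ 2 * (v ⬝ᵥ v) := by
  have hM : (t ^ 2 • (1 : Matrix V V ℝ) - A * A).IsHermitian := by
    unfold Matrix.IsHermitian
    rw [Matrix.conjTranspose_eq_transpose_of_trivial]
    simp [Matrix.transpose_sub, Matrix.transpose_mul, hA]
  have hpos : (t ^ 2 • (1 : Matrix V V ℝ) - A * A).PosSemidef := by
    rw [hM.posSemidef_iff_eigenvalues_nonneg]
    intro i
    by_contra hneg
    simp only [Pi.zero_apply, not_le] at hneg
    set w : V → ℝ := ⇑(hM.eigenvectorBasis i) with hw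
    have hw0 : w ≠ 0 := by
      intro h0
      have := hM.eigenvectorBasis.orthonormal.ne_zero i
      exact this (by ext j; exact congrFun h0 j)
    have he : (t ^ 2 • (1 : Matrix V V ℝ) - A * A) *ᵥ w = hM.eigenvalues i • w :=
      hM.mulVec_eigenvectorBasis i
    rw [Matrix.sub_mulVec, Matrix.smul_mulVec, Matrix.one_mulVec] at he
    set c : ℝ := t ^ 2 - hM.eigenvalues i with hc
    have hc0 : t ^ 2 < c := by rw [hc]; linarith
    have hAA : (A * A) *ᵥ w = c • w := by
      rw [hc, sub_smul, ← he]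
      abel
    have hcpos : 0 < c := lt_of_le_of_lt (sq_nonneg t) hc0
    have hs : Real.sqrt c * Real.sqrt c = c := Real.mul_self_sqrt hcpos.le
    have hts : t < Real.sqrt c := by
      rw [Real.lt_sqrt ht]
      exact hc0
    by_cases h2 : A *ᵥ w + Real.sqrt c • w = 0
    · have h3 : A *ᵥ w = (-Real.sqrt c) • w := by
        rw [neg_smul]
        exact eq_neg_of_add_eq_zero_left h2
      have := h _ (hasEigenvalue_of hw0 h3)
      rw [abs_neg, abs_of_nonneg (Real.sqrt_nonneg _)] at this
      linarith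
    · have h3 : A *ᵥ (A *ᵥ w + Real.sqrt c • w) = Real.sqrt c • (A *ᵥ w + Real.sqrt c • w) := by
        rw [Matrix.mulVec_add, Matrix.mulVec_mulVec, hAA, Matrix.mulVec_smul, smul_add, smul_smul,
          hs, add_comm]
      have := h _ (hasEigenvalue_of h2 h3)
      rw [abs_of_nonneg (Real.sqrt_nonneg _)] at this
      linarith
  have := hpos.dotProduct_mulVec_nonneg v
  rw [Matrix.sub_mulVec, Matrix.smul_mulVec, Matrix.one_mulVec, dotProduct_sub, dotProduct_smul,
    star_trivial] at this
  simp only [smul_eq_mul] at this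
  linarith

/-- If the radius is at most `t` and the rows `r` and `r'` have square sum `t ^ 2`, then they are
orthogonal. -/
theorem orth_of_radius {A : Matrix V V ℝ} (hA : Aᵀ = A) {t : ℝ} (ht : 0 ≤ t)
    (h : radius A ≤ t) {r r' : V} (hne : r ≠ r') (hr : (A * A) r r = t ^ 2)
    (hr' : (A * A) r' r' = t ^ 2) : (A * A) r r' = 0 := by
  rw [radius_le_iff ht] at h
  have key : ∀ e : ℝ, e ^ 2 = 1 → 2 * e * (A * A) r r' ≤ 0 := by
    intro e he
    have hsymm : (A * A) r' r = (A * A) r r' := by
      have : (A * A)ᵀ = A * A := by rw [Matrix.transpose_mul, hA]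
      calc (A * A) r' r = (A * A)ᵀ r r' := rfl
        _ = _ := by rw [this]
    have h1 := sq_le_of_eigen hA ht h (Pi.single r 1 + e • Pi.single r' 1)
    have h2 : (Pi.single r 1 + e • Pi.single r' 1 : V → ℝ) ⬝ᵥ
        ((A * A) *ᵥ (Pi.single r 1 + e • Pi.single r' 1)) =
        (A * A) r r + 2 * e * (A * A) r r' + e ^ 2 * (A * A) r' r' := by
      rw [Matrix.mulVec_add, Matrix.mulVec_smul, add_dotProduct, dotProduct_add, dotProduct_add,
        smul_dotProduct, smul_dotProduct, dotProduct_smul, dotProduct_smul]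
      simp only [Matrix.mulVec_single_one, single_one_dotProduct, smul_eq_mul, Matrix.col_apply]
      rw [hsymm]
      ring
    have h3 : (Pi.single r 1 + e • Pi.single r' 1 : V → ℝ) ⬝ᵥ
        (Pi.single r 1 + e • Pi.single r' 1) = 1 + e ^ 2 := by
      rw [add_dotProduct, smul_dotProduct, single_one_dotProduct, single_one_dotProduct]
      simp [hne, hne.symm]
      ring
    rw [h2, h3, hr, hr', he] at h1
    linarith
  have h1 := key 1 (by norm_num)
  have h2 := key (-1) (by norm_num)
  linarith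

/-- If the graph is bipartite with one side `row`, the rows are pairwise orthogonal and each of
them has square sum at most `t ^ 2`, then the radius is at most `t`. -/
theorem radius_le_of_orth {A : Matrix V V ℝ} {t : ℝ} (ht : 0 ≤ t) (row : V → Prop)
    (hrow : ∀ r r', row r → row r' → A r r' = 0) (hcol : ∀ c c', ¬ row c → ¬ row c' → A c c' = 0)
    (horth : ∀ r r', row r → row r' → r ≠ r' → (A * A) r r' = 0)
    (hnorm : ∀ r, row r → (A * A) r r ≤ t ^ 2) : radius A ≤ t := by
  classical
  rw [radius_le_iff ht]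
  intro μ hμ
  obtain ⟨v, hv0, hv⟩ := exists_of_hasEigenvalue hμ
  by_cases hμ0 : μ = 0
  · rw [hμ0, abs_zero]
    exact ht
  have hAA : (A * A) *ᵥ v = (μ ^ 2) • v := by
    rw [← Matrix.mulVec_mulVec, hv, Matrix.mulVec_smul, hv, smul_smul, sq]
  have hcross : ∀ r c, row r → ¬ row c → (A * A) r c = 0 := by
    intro r c hr hc
    rw [Matrix.mul_apply]
    refine Finset.sum_eq_zero fun j _ => ?_
    by_cases hj : row j
    · rw [hrow r j hr hj, zero_mul]
    · rw [hcol j c hj hc, mul_zero]
  by_cases hex : ∃ r, row r ∧ v r ≠ 0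
  · obtain ⟨r, hr, hvr⟩ := hex
    have h1 : ((A * A) *ᵥ v) r = (A * A) r r * v r := by
      rw [Matrix.mulVec, dotProduct]
      rw [Finset.sum_eq_single r]
      · intro c _ hc
        by_cases hrc : row c
        · rw [horth r c hr hrc hc.symm, zero_mul]
        · rw [hcross r c hr hrc, zero_mul]
      · intro hr
        exact absurd (Finset.mem_univ _) hr
    rw [hAA, Pi.smul_apply, smul_eq_mul] at h1
    have h2 : μ ^ 2 = (A * A) r r := mul_right_cancel₀ hvr h1
    have h3 : μ ^ 2 ≤ t ^ 2 := h2 ▸ hnorm r hr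
    exact abs_le_of_sq_le_sq h3 ht
  · push Not at hex
    exfalso
    apply hv0
    funext c
    by_cases hc : row c
    · exact hex c hc
    · have h1 : (A *ᵥ v) c = 0 := by
        rw [Matrix.mulVec, dotProduct]
        refine Finset.sum_eq_zero fun j _ => ?_
        by_cases hj : row j
        · rw [hex j hj, mul_zero]
        · rw [hcol c j hc hj, zero_mul]
      rw [hv, Pi.smul_apply, smul_eq_mul] at h1
      exact (mul_eq_zero.1 h1).resolve_left hμ0

theorem rhoMin_le_iff {G : SimpleGraph V} {t : ℝ} :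
    rhoMin G ≤ t ↔ ∃ σ : Signature G, radius (signedAdj G σ) ≤ t := by
  constructor
  · intro h
    obtain ⟨σ, hσ⟩ := exists_eq_ciInf_of_finite (f := fun σ : Signature G => radius (signedAdj G σ))
    exact ⟨σ, hσ.le.trans h⟩
  · rintro ⟨σ, hσ⟩
    exact (ciInf_le (Set.finite_range _).bddBelow σ).trans hσ

omit [Fintype V] [DecidableEq V] in
theorem signedAdj_transpose {G : SimpleGraph V} (σ : Signature G) :
    (signedAdj G σ)ᵀ = signedAdj G σ := by
  ext x y
  simp only [Matrix.transpose_apply, signedAdj]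
  by_cases h : G.Adj x y
  · rw [dif_pos h, dif_pos h.symm]
    have he : (⟨s(y, x), h.symm⟩ : G.edgeSet) = ⟨s(x, y), h⟩ := Subtype.ext Sym2.eq_swap
    rw [he]
  · rw [dif_neg h, dif_neg fun h' => h h'.symm]

end Pool.Agent.helper506_sr
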