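import Pool.Agent.helper506_sr.Inc

/-!
# Rows with slack

For given sets of core columns and numbers `N r r'` we add `N r r'` columns contained exactly in
the rows `r` and `r'`, and columns contained in one row which make all rows equally long. The rows
of the resulting matrix can be made orthogonal if and only if the core can be signed such that the
inner product of the rows `r` and `r'` is at most `N r r'` in absolute value.
-/

set_option autoImplicit false

namespace Pool.Agent.helper506_sr

theorem sum_map_range (f : ℕ → ℕ) (n : ℕ) :
    ((List.range n).map f).sum = ∑ i ∈ Finset.range n, f i := by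
  induction n with
  | zero => simp
  | succ n ih => rw [List.range_succ, List.map_append, List.sum_append, ih,
      Finset.sum_range_succ]; simp

theorem card_filter_getD {α : Type} (p : α → Prop) [DecidablePred p] (d : α) :
    ∀ l : List α, ((Finset.range l.length).filter (fun j => p (l.getD j d))).card =
      l.countP (fun a => decide (p a))
  | [] => by simp
  | a :: l => by
    have ih := card_filter_getD p d l
    rw [Finset.card_filter] at ih ⊢
    rw [List.length_cons, Finset.sum_range_succ', List.countP_cons]
    simp only [List.getD_cons_succ, List.getD_cons_zero]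
    rw [ih]
    simp

variable (V R : ℕ) (core : ℕ → ℕ → Bool) (N : ℕ → ℕ → ℕ)

/-- The core columns. -/
def coreCols : List (List ℕ) :=
  (List.range V).map (fun v => (List.range R).filter (fun r => core r v))

/-- The columns common to two rows. -/
def slackCols : List (List ℕ) :=
  (List.range R).flatMap (fun r => (List.range R).flatMap (fun r' =>
    if r < r' then List.replicate (N r r') [r, r'] else []))

/-- Core and slack columns. -/
def base : List (List ℕ) := coreCols V R core ++ slackCols R N

/-- The columns contained in one row. -/
def padCols (b : List (List ℕ)) : List (List ℕ) :=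
  (List.range R).flatMap (fun r =>
    List.replicate (b.length ^ 2 - b.countP (fun c => decide (r ∈ c))) [r])

/-- All columns. -/
def allCols : List (List ℕ) := base V R core N ++ padCols R (base V R core N)

/-- All columns but the core ones. -/
def rest : List (List ℕ) := slackCols R N ++ padCols R (base V R core N)

theorem allCols_eq : allCols V R core N = coreCols V R core ++ rest V R core N := by
  simp [allCols, base, rest]

theorem coreCols_length : (coreCols V R core).length = V := by simp [coreCols]

theorem mem_slack {c : List ℕ} (hc : c ∈ slackCols R N) :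
    ∃ r r', r < r' ∧ r' < R ∧ c = [r, r'] := by
  unfold slackCols at hc
  simp only [List.mem_flatMap, List.mem_range] at hc
  obtain ⟨r, _, r', hr', h⟩ := hc
  split_ifs at h with hlt
  · exact ⟨r, r', hlt, hr', (List.mem_replicate.1 h).2⟩
  · simp at h

theorem mem_pad {b : List (List ℕ)} {c : List ℕ} (hc : c ∈ padCols R b) :
    ∃ r, r < R ∧ c = [r] := by
  unfold padCols at hc
  simp only [List.mem_flatMap, List.mem_range] at hc
  obtain ⟨r, hr, h⟩ := hc
  exact ⟨r, hr, (List.mem_replicate.1 h).2⟩

theorem good_all : Good R (allCols V R core N) := by
  intro c hc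
  rw [allCols_eq, List.mem_append] at hc
  rcases hc with hc | hc
  · unfold coreCols at hc
    rw [List.mem_map] at hc
    obtain ⟨v, _, rfl⟩ := hc
    refine ⟨List.Nodup.filter _ List.nodup_range, fun r hr => ?_⟩
    exact List.mem_range.1 (List.mem_filter.1 hr).1
  · unfold rest at hc
    rw [List.mem_append] at hc
    rcases hc with hc | hc
    · obtain ⟨r, r', h1, h2, rfl⟩ := mem_slack R N hc
      refine ⟨by simp; omega, fun x hx => ?_⟩
      simp only [List.mem_cons, List.not_mem_nil, or_false] at hx
      omega
    · obtain ⟨r, h1, rfl⟩ := mem_pad R hc
      refine ⟨by simp, fun x hx => ?_⟩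
      simp only [List.mem_cons, List.not_mem_nil, or_false] at hx
      omega

theorem countP_pad (b : List (List ℕ)) (r : ℕ) (hr : r < R) :
    (padCols R b).countP (fun c => decide (r ∈ c)) =
      b.length ^ 2 - b.countP (fun c => decide (r ∈ c)) := by
  unfold padCols
  rw [List.countP_flatMap]
  have h1 : List.map (List.countP (fun c => decide (r ∈ c)) ∘ fun r' =>
      List.replicate (b.length ^ 2 - b.countP (fun c => decide (r' ∈ c))) [r']) (List.range R) =
      List.map (fun r' => if r' = r then b.length ^ 2 - b.countP (fun c => decide (r ∈ c)) else 0)
        (List.range R) := by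
    refine List.map_congr_left fun r' _ => ?_
    simp only [Function.comp_apply, List.countP_replicate]
    by_cases h : r' = r
    · subst h
      simp
    · have : r ≠ r' := fun h' => h h'.symm
      simp [h, this]
  rw [h1, sum_map_range, Finset.sum_ite_eq' (Finset.range R) r, if_pos (Finset.mem_range.2 hr)]

theorem deg_all (r : ℕ) (hr : r < R) :
    ((Finset.range (allCols V R core N).length).filter
      (fun j => I (allCols V R core N) r j)).card = (base V R core N).length ^ 2 := by
  have h := card_filter_getD (fun c : List ℕ => r ∈ c) [] (allCols V R core N)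
  have h' : ((Finset.range (allCols V R core N).length).filter
      (fun j => I (allCols V R core N) r j)).card =
      (allCols V R core N).countP (fun c => decide (r ∈ c)) := h
  rw [h']
  unfold allCols
  rw [List.countP_append, countP_pad R _ r hr]
  have h1 : (base V R core N).countP (fun c => decide (r ∈ c)) ≤ (base V R core N).length :=
    List.countP_le_length
  have h2 : (base V R core N).length ≤ (base V R core N).length ^ 2 :=
    Nat.le_self_pow (by norm_num) _
  omega

theorem count_rest (r r' : ℕ) (hlt : r < r') (hr' : r' < R) :
    ((Finset.range (rest V R core N).length).filter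
      (fun i => (rest V R core N).getD i [] = [r, r'])).card = N r r' := by
  rw [card_filter_getD (fun c : List ℕ => c = [r, r']) [] (rest V R core N)]
  unfold rest
  rw [List.countP_append]
  have h1 : (padCols R (base V R core N)).countP (fun c => decide (c = [r, r'])) = 0 := by
    rw [List.countP_eq_zero]
    intro c hc
    obtain ⟨x, _, rfl⟩ := mem_pad R hc
    simp
  rw [h1, add_zero]
  unfold slackCols
  rw [List.countP_flatMap]
  have h2 : List.map (List.countP (fun c => decide (c = [r, r'])) ∘ fun a =>
      (List.range R).flatMap (fun b => if a < b then List.replicate (N a b) [a, b] else []))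
      (List.range R) =
      List.map (fun a => if a = r then N r r' else 0) (List.range R) := by
    refine List.map_congr_left fun a _ => ?_
    simp only [Function.comp_apply]
    rw [List.countP_flatMap]
    have h3 : List.map (List.countP (fun c => decide (c = [r, r'])) ∘ fun b =>
        if a < b then List.replicate (N a b) [a, b] else []) (List.range R) =
        List.map (fun b => if b = r' then (if a = r then N r r' else 0) else 0)
          (List.range R) := by
      refine List.map_congr_left fun b _ => ?_
      simp only [Function.comp_apply]
      by_cases ha : a = r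
      · subst ha
        by_cases hb : b = r'
        · subst hb
          simp [hlt, List.countP_replicate]
        · by_cases hab : a < b
          · simp [hab, List.countP_replicate, hb]
          · simp [hab, hb]
      · by_cases hab : a < b
        · simp [hab, List.countP_replicate, ha]
        · simp [hab, ha]
    rw [h3, sum_map_range, Finset.sum_ite_eq' (Finset.range R) r', if_pos (Finset.mem_range.2 hr')]
  rw [h2, sum_map_range, Finset.sum_ite_eq' (Finset.range R) r,
    if_pos (Finset.mem_range.2 (by omega))]

theorem I_core {r v : ℕ} (hr : r < R) (hv : v < V) :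
    I (allCols V R core N) r v ↔ core r v = true := by
  unfold I
  rw [allCols_eq, List.getD_append _ _ _ _ (by rw [coreCols_length]; exact hv),
    List.getD_eq_getElem _ _ (by rw [coreCols_length]; exact hv)]
  unfold coreCols
  simp [hr]

theorem getD_rest (i : ℕ) :
    (allCols V R core N).getD (V + i) [] = (rest V R core N).getD i [] := by
  rw [allCols_eq, List.getD_append_right _ _ _ _ (by rw [coreCols_length]; omega),
    coreCols_length, Nat.add_sub_cancel_left]

theorem I_rest {r r' i : ℕ} (hlt : r < r') :
    (I (allCols V R core N) r (V + i) ∧ I (allCols V R core N) r' (V + i)) ↔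
      (rest V R core N).getD i [] = [r, r'] := by
  unfold I
  rw [getD_rest]
  constructor
  · rintro ⟨h1, h2⟩
    have hi : i < (rest V R core N).length := by
      by_contra hi
      rw [List.getD_eq_default _ _ (by omega)] at h1
      simp at h1
    rw [List.getD_eq_getElem _ _ hi] at h1 h2 ⊢
    have hm := List.getElem_mem hi
    unfold rest at hm
    rw [List.mem_append] at hm
    rcases hm with hm | hm
    · obtain ⟨a, b, hab, _, he⟩ := mem_slack R N hm
      have he' : (rest V R core N)[i] = [a, b] := he
      rw [he'] at h1 h2 ⊢
      simp only [List.mem_cons, List.not_mem_nil, or_false] at h1 h2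
      have h3 : r = a := by omega
      have h4 : r' = b := by omega
      rw [h3, h4]
    · obtain ⟨a, _, he⟩ := mem_pad R hm
      have he' : (rest V R core N)[i] = [a] := he
      rw [he'] at h1 h2
      simp only [List.mem_cons, List.not_mem_nil, or_false] at h1 h2
      omega
  · intro h
    rw [h]
    simp

/-- The inner product of two rows splits in a core part and a slack part. -/
theorem sum_split (r r' : ℕ) (hlt : r < r') (hr' : r' < R) (f : ℕ → ℤ) :
    ∑ j ∈ (Finset.range (allCols V R core N).length).filter
      (fun j => I (allCols V R core N) r j ∧ I (allCols V R core N) r' j), f j =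
    ∑ v ∈ (Finset.range V).filter (fun v => core r v = true ∧ core r' v = true), f v +
    ∑ i ∈ (Finset.range (rest V R core N).length).filter
      (fun i => (rest V R core N).getD i [] = [r, r']), f (V + i) := by
  have hl : (allCols V R core N).length = V + (rest V R core N).length := by
    rw [allCols_eq, List.length_append, coreCols_length]
  rw [Finset.sum_filter, Finset.sum_filter, Finset.sum_filter, hl, Finset.sum_range_add]
  congr 1
  · refine Finset.sum_congr rfl fun v hv => ?_
    rw [Finset.mem_range] at hv
    have h1 := I_core V R core N (r := r) (v := v) (by omega) hv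
    have h2 := I_core V R core N (r := r') (v := v) hr' hv
    simp only [h1, h2]
  · refine Finset.sum_congr rfl fun i _ => ?_
    have h := I_rest V R core N (r := r) (r' := r') (i := i) hlt
    simp only [h]

/-- A sum of signs has the parity of the number of its summands. -/
theorem sum_parity (s : Finset ℕ) (f : ℕ → ℤ) (hf : ∀ j, f j = 1 ∨ f j = -1) :
    ∃ k : ℤ, ∑ j ∈ s, f j = (s.card : ℤ) + 2 * k := by
  classical
  induction s using Finset.induction_on with
  | empty => exact ⟨0, by simp⟩
  | insert a s ha ih =>
    obtain ⟨k, hk⟩ := ih
    rw [Finset.sum_insert ha, Finset.card_insert_of_notMem ha, hk]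
    rcases hf a with h | h
    · exact ⟨k, by rw [h]; push_cast; ring⟩
    · exact ⟨k - 1, by rw [h]; push_cast; ring⟩

theorem abs_sum_le_card (s : Finset ℕ) (f : ℕ → ℤ) (hf : ∀ j, f j = 1 ∨ f j = -1) :
    |∑ j ∈ s, f j| ≤ (s.card : ℤ) := by
  refine (Finset.abs_sum_le_sum_abs _ _).trans ?_
  have : ∀ j ∈ s, |f j| = 1 := by
    intro j _
    rcases hf j with h | h <;> rw [h] <;> norm_num
  rw [Finset.sum_congr rfl this]
  simp

/-- **Rows with slack.** -/
theorem sys_iff
    (hN : ∀ r r', r < r' → r' < R → ∃ k : ℤ, (N r r' : ℤ) = 2 * k +
      (((Finset.range V).filter (fun v => core r v = true ∧ core r' v = true)).card : ℤ)) :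
    (∃ s : ℕ → ℕ → ℤ, (∀ r j, s r j = 1 ∨ s r j = -1) ∧ ∀ r r', r < r' → r' < R →
      ∑ j ∈ (Finset.range (allCols V R core N).length).filter
        (fun j => I (allCols V R core N) r j ∧ I (allCols V R core N) r' j),
          s r j * s r' j = 0) ↔
    (∃ s : ℕ → ℕ → ℤ, (∀ r v, s r v = 1 ∨ s r v = -1) ∧ ∀ r r', r < r' → r' < R →
      |∑ v ∈ (Finset.range V).filter (fun v => core r v = true ∧ core r' v = true),
        s r v * s r' v| ≤ (N r r' : ℤ)) := by
  have hprod : ∀ s : ℕ → ℕ → ℤ, (∀ r j, s r j = 1 ∨ s r j = -1) → ∀ r r' j,
      s r j * s r' j = 1 ∨ s r j * s r' j = -1 := by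
    intro s hs r r' j
    rcases hs r j with h | h <;> rcases hs r' j with h' | h' <;> rw [h, h'] <;> simp
  constructor
  · rintro ⟨s, hs, h⟩
    refine ⟨s, hs, fun r r' hlt hr' => ?_⟩
    have h1 := h r r' hlt hr'
    rw [sum_split V R core N r r' hlt hr' (fun j => s r j * s r' j)] at h1
    have h2 := abs_sum_le_card ((Finset.range (rest V R core N).length).filter
      (fun i => (rest V R core N).getD i [] = [r, r']))
      (fun i => s r (V + i) * s r' (V + i)) (fun i => hprod s hs r r' (V + i))
    rw [count_rest V R core N r r' hlt hr'] at h2
    rw [eq_neg_of_add_eq_zero_left h1, abs_neg]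
    exact h2
  · rintro ⟨s, hs, h⟩
    -- the columns where the second of the two signs is positive
    have hS : ∀ p : ℕ × ℕ, ∃ S : Finset ℕ, p.1 < p.2 → p.2 < R →
        S ⊆ (Finset.range (rest V R core N).length).filter
          (fun i => (rest V R core N).getD i [] = [p.1, p.2]) ∧
        2 * (S.card : ℤ) = N p.1 p.2 - ∑ v ∈ (Finset.range V).filter
          (fun v => core p.1 v = true ∧ core p.2 v = true), s p.1 v * s p.2 v := by
      rintro ⟨r, r'⟩
      by_cases hc : r < r' ∧ r' < R
      · obtain ⟨hlt, hr'⟩ := hc
        have h1 := h r r' hlt hr'
        obtain ⟨k, hk⟩ := sum_parity ((Finset.range V).filter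
          (fun v => core r v = true ∧ core r' v = true)) (fun v => s r v * s r' v)
          (fun v => hprod s hs r r' v)
        obtain ⟨k', hk'⟩ := hN r r' hlt hr'
        rw [abs_le] at h1
        have hc := count_rest V R core N r r' hlt hr'
        have hm : ((k' - k).toNat : ℤ) = k' - k := Int.toNat_of_nonneg (by omega)
        obtain ⟨S, hS1, hS2⟩ := Finset.exists_subset_card_eq (n := (k' - k).toNat)
          (s := (Finset.range (rest V R core N).length).filter
          (fun i => (rest V R core N).getD i [] = [r, r'])) (by rw [hc]; omega)
        refine ⟨S, fun _ _ => ⟨hS1, ?_⟩⟩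
        simp only
        rw [hS2]
        omega
      · exact ⟨∅, fun h1 h2 => absurd ⟨h1, h2⟩ hc⟩
    choose S hS using hS
    let s' : ℕ → ℕ → ℤ := fun r j => if j < V then s r j else
      if ((rest V R core N).getD (j - V) []).getD 0 0 = r then 1 else
        if (j - V) ∈ S (((rest V R core N).getD (j - V) []).getD 0 0,
          ((rest V R core N).getD (j - V) []).getD 1 0) then 1 else -1
    have hs' : ∀ r j, s' r j = 1 ∨ s' r j = -1 := by
      intro r j
      simp only [s']
      split_ifs
      · exact hs r j
      · exact Or.inl rfl
      · exact Or.inl rfl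
      · exact Or.inr rfl
    refine ⟨s', hs', fun r r' hlt hr' => ?_⟩
    rw [sum_split V R core N r r' hlt hr' (fun j => s' r j * s' r' j)]
    obtain ⟨hS1, hS2⟩ := hS (r, r') hlt hr'
    simp only at hS1 hS2
    have h1 : ∑ v ∈ (Finset.range V).filter (fun v => core r v = true ∧ core r' v = true),
        s' r v * s' r' v = ∑ v ∈ (Finset.range V).filter
          (fun v => core r v = true ∧ core r' v = true), s r v * s r' v := by
      refine Finset.sum_congr rfl fun v hv => ?_
      rw [Finset.mem_filter, Finset.mem_range] at hv
      simp only [s', hv.1, if_true]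
    have h2 : ∑ i ∈ (Finset.range (rest V R core N).length).filter
        (fun i => (rest V R core N).getD i [] = [r, r']), s' r (V + i) * s' r' (V + i) =
        ∑ i ∈ (Finset.range (rest V R core N).length).filter
        (fun i => (rest V R core N).getD i [] = [r, r']),
          (if i ∈ S (r, r') then (1 : ℤ) else -1) := by
      refine Finset.sum_congr rfl fun i hi => ?_
      rw [Finset.mem_filter] at hi
      have hne : r ≠ r' := by omega
      have hV : ¬ V + i < V := by omega
      simp only [s', hV, if_false, Nat.add_sub_cancel_left, hi.2]
      simp [hne]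
    rw [h1, h2]
    have h3 : ∑ i ∈ (Finset.range (rest V R core N).length).filter
        (fun i => (rest V R core N).getD i [] = [r, r']),
          (if i ∈ S (r, r') then (1 : ℤ) else -1) =
        2 * ((S (r, r')).card : ℤ) - N r r' := by
      have h4 : ∀ i, (if i ∈ S (r, r') then (1 : ℤ) else -1) =
          2 * (if i ∈ S (r, r') then (1 : ℤ) else 0) - 1 := by
        intro i
        split_ifs <;> norm_num
      rw [Finset.sum_congr rfl fun i _ => h4 i, Finset.sum_sub_distrib, ← Finset.mul_sum,
        Finset.sum_ite_mem, Finset.inter_eq_right.2 hS1]
      simp only [Finset.sum_const, nsmul_eq_mul, mul_one]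
      rw [count_rest V R core N r r' hlt hr']
    rw [h3]
    omega

end Pool.Agent.helper506_sr
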